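import Mathlib

set_option autoImplicit false

universe u v

namespace Pool.Agent.helper71.Sel

open Set Filter Cardinal Topology

/-- `U` is an open cover of the space `Z`. -/
def IsOpenCov (Z : Type u) [TopologicalSpace Z] (U : Set (Set Z)) : Prop :=
  (∀ u ∈ U, IsOpen u) ∧ ⋃₀ U = Set.univ

/-- `U` is an open omega-cover of `Z`: an open cover, `Z` is not a member, and every finite
subset of `Z` lies in some member. -/
def IsOmegaCover (Z : Type u) [TopologicalSpace Z] (U : Set (Set Z)) : Prop :=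
  IsOpenCov Z U ∧ Set.univ ∉ U ∧ ∀ F : Set Z, F.Finite → ∃ u ∈ U, F ⊆ u

/-- `U` is an open gamma-cover of `Z`: an open cover that is infinite and such that each point
of `Z` lies outside only finitely many members. -/
def IsGammaCover (Z : Type u) [TopologicalSpace Z] (U : Set (Set Z)) : Prop :=
  IsOpenCov Z U ∧ U.Infinite ∧ ∀ z : Z, {u | u ∈ U ∧ z ∉ u}.Finite

/-- The selection principle `S₁(Γ, Ω)`. -/
def S1GammaOmega (Z : Type u) [TopologicalSpace Z] : Prop :=
  ∀ U : ℕ → Set (Set Z), (∀ n, IsGammaCover Z (U n)) →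
    ∃ V : ℕ → Set Z, (∀ n, V n ∈ U n) ∧ IsOmegaCover Z (Set.range V)

/-- The gamma-property `S₁(Ω, Γ)`. -/
def HasGammaProperty (Z : Type u) [TopologicalSpace Z] : Prop :=
  ∀ U : ℕ → Set (Set Z), (∀ n, IsOmegaCover Z (U n)) →
    ∃ V : ℕ → Set Z, (∀ n, V n ∈ U n) ∧ IsGammaCover Z (Set.range V)

/-- `X` is productively `S₁(Γ, Ω)` for metric spaces: `X × Y` satisfies `S₁(Γ, Ω)` for every
infinite metric space `Y` satisfying `S₁(Γ, Ω)`. -/
def ProductivelyS1 (X : Type) [TopologicalSpace X] : Prop :=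
  ∀ (Y : Type) [MetricSpace Y], Infinite Y → S1GammaOmega Y → S1GammaOmega (X × Y)

/-- `pr(S₁(Γ, Ω))`: the least cardinality of an infinite Tychonoff space that is not productively
`S₁(Γ, Ω)` for metric spaces. -/
noncomputable def prS1 : Cardinal.{0} :=
  sInf {c | ∃ (X : Type) (_ : TopologicalSpace X),
    T35Space X ∧ Infinite X ∧ #X = c ∧ ¬ ProductivelyS1 X}

/-- The infinite subsets of `ω`, as points of the Cantor space `P(ω) = (ℕ → Bool)`. -/
def InfSets : Set (ℕ → Bool) := {a | {n | a n = true}.Infinite}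

/-- The finite subsets of `ω`, as points of the Cantor space `P(ω) = (ℕ → Bool)`. -/
def FinSets : Set (ℕ → Bool) := {a | {n | a n = true}.Finite}

/-- The increasing enumeration of a subset of `ω`. -/
noncomputable def enum (a : ℕ → Bool) (n : ℕ) : ℕ := Nat.nth (fun k => a k = true) n

/-- A set `X ⊆ [ω]^ω` with at least `κ` elements is `κ`-fin-unbounded if for each `d ∈ [ω]^ω`
there is `S ⊆ X` with `|S| < κ` such that for every nonempty finite `F ⊆ X \ S` one has
`d(n) ≤ min_{x ∈ F} x(n)` for infinitely many `n`. -/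
def FinUnbounded (κ : Cardinal.{0}) (X : Set (ℕ → Bool)) : Prop :=
  X ⊆ InfSets ∧ κ ≤ #X ∧
    ∀ d ∈ InfSets, ∃ S : Set (ℕ → Bool), S ⊆ X ∧ #S < κ ∧
      ∀ (F : Finset (ℕ → Bool)) (hF : F.Nonempty), (F : Set (ℕ → Bool)) ⊆ X \ S →
        {n | enum d n ≤ F.inf' hF (fun x => enum x n)}.Infinite

end Pool.Agent.helper71.Sel
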