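import Mathlib
import Pool.Agent.helper71.SelDefs

set_option autoImplicit false

universe u v

namespace Pool.Agent.helper71.Sel

open Set Filter Cardinal Topology

/-- Sequential form of `S₁(Γ, Ω)`. -/
def S1Seq (Z : Type u) [TopologicalSpace Z] : Prop :=
  ∀ V : ℕ → ℕ → Set Z, (∀ n m, IsOpen (V n m)) → (∀ n z, ∀ᶠ m in atTop, z ∈ V n m) →
    ∃ h : ℕ → ℕ, ∀ F : Set Z, F.Finite → ∃ᶠ n in atTop, F ⊆ V n (h n)

/-- Sequential form of the gamma-property. -/
def GammaSeq (Z : Type u) [TopologicalSpace Z] : Prop :=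
  ∀ W : ℕ → Set (Set Z), (∀ n, ∀ v ∈ W n, IsOpen v) →
    (∀ n, ∀ F : Set Z, F.Finite → ∃ v ∈ W n, F ⊆ v) →
    ∃ V : ℕ → Set Z, (∀ n, V n ∈ W n) ∧ ∀ z, ∀ᶠ n in atTop, z ∈ V n

/-- eventually for all points of a finite set -/
lemma eventually_subset_of_finite {Z : Type u} {V : ℕ → Set Z} {F : Set Z} (hF : F.Finite)
    (h : ∀ z, ∀ᶠ m in atTop, z ∈ V m) : ∀ᶠ m in atTop, F ⊆ V m := by
  have := (Filter.eventually_all_finite (l := (atTop : Filter ℕ)) hF
    (p := fun z m => z ∈ V m)).2 (fun z _ => h z)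
  filter_upwards [this] with m hm z hz using hm z hz

/-- If the range of a gamma-sequence avoids `univ` then it is infinite. -/
lemma range_infinite_of_eventually {Z : Type u} {V : ℕ → Set Z}
    (h : ∀ z, ∀ᶠ m in atTop, z ∈ V m) (hne : ∀ m, V m ≠ Set.univ) : (Set.range V).Infinite := by
  intro hfin
  obtain ⟨W, hW⟩ : ∃ W, ∃ᶠ m in atTop, V m = W := by
    by_contra hcon
    push Not at hcon
    have h1 : ∀ᶠ m in atTop, ∀ W ∈ Set.range V, V m ≠ W := by
      rw [Filter.eventually_all_finite hfin]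
      intro W _
      simpa [Filter.Frequently] using hcon W
    obtain ⟨m, hm⟩ := h1.exists
    exact hm (V m) ⟨m, rfl⟩ rfl
  obtain ⟨m0, hm0⟩ := hW.exists
  apply hne m0
  rw [hm0]
  ext z
  simp only [Set.mem_univ, iff_true]
  obtain ⟨m, hm1, hm2⟩ := (hW.and_eventually (h z)).exists
  rw [← hm1]; exact hm2

lemma finite_not_mem_of_eventually {Z : Type u} {V : ℕ → Set Z} {z : Z}
    (h : ∀ᶠ m in atTop, z ∈ V m) : {u | u ∈ Set.range V ∧ z ∉ u}.Finite := by
  obtain ⟨N, hN⟩ := Filter.eventually_atTop.1 h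
  apply ((Set.finite_Iio N).image V).subset
  rintro u ⟨⟨m, rfl⟩, hz⟩
  refine ⟨m, ?_, rfl⟩
  by_contra hm
  exact hz (hN m (not_lt.1 (fun h' => hm h')))

lemma s1Seq_of_s1GammaOmega {Z : Type u} [TopologicalSpace Z] (hZ : S1GammaOmega Z) :
    S1Seq Z := by
  classical
  intro V hopen hV
  by_cases hA : ∃ᶠ n in atTop, ∃ m, V n m = Set.univ
  · refine ⟨fun n => if hn : ∃ m, V n m = Set.univ then hn.choose else 0, ?_⟩
    intro F _
    refine hA.mono ?_
    intro n hn
    simp only [dif_pos hn]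
    rw [hn.choose_spec]
    exact Set.subset_univ _
  · rw [Filter.not_frequently] at hA
    obtain ⟨N, hN⟩ := Filter.eventually_atTop.1 hA
    push Not at hN
    have hγ : ∀ n, IsGammaCover Z (Set.range (V (N + n))) := by
      intro n
      refine ⟨⟨?_, ?_⟩, ?_, ?_⟩
      · rintro u ⟨m, rfl⟩
        exact hopen _ _
      · ext z
        simp only [Set.mem_sUnion, Set.mem_range, Set.mem_univ, iff_true]
        obtain ⟨m, hm⟩ := (hV (N + n) z).exists
        exact ⟨_, ⟨m, rfl⟩, hm⟩
      · exact range_infinite_of_eventually (hV (N + n)) (hN (N + n) (Nat.le_add_right _ _))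
      · intro z
        exact finite_not_mem_of_eventually (hV (N + n) z)
    obtain ⟨W, hW, ⟨_, huniv, hΩ⟩⟩ := hZ _ hγ
    choose g hg using hW
    refine ⟨fun n => if h : N ≤ n then g (n - N) else 0, ?_⟩
    intro F hF
    rw [Filter.frequently_atTop]
    intro K
    have hne : ∀ i : ℕ, ∃ z, z ∉ W i := by
      intro i
      by_contra hcon
      push Not at hcon
      exact huniv ⟨i, Set.eq_univ_of_forall hcon⟩
    choose z hz using hne
    obtain ⟨u, ⟨i, rfl⟩, hu⟩ := hΩ (F ∪ z '' Set.Iio K) (hF.union ((Set.finite_Iio K).image z))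
    have hi : K ≤ i := by
      by_contra hlt
      exact hz i (hu (Or.inr ⟨i, not_le.1 hlt, rfl⟩))
    refine ⟨N + i, by omega, ?_⟩
    have : N ≤ N + i := Nat.le_add_right _ _
    simp only [this, dif_pos, Nat.add_sub_cancel_left]
    rw [hg i]
    exact fun x hx => hu (Or.inl hx)

lemma s1GammaOmega_of_s1Seq {Z : Type u} [TopologicalSpace Z] (hZ : S1Seq Z) :
    S1GammaOmega Z := by
  classical
  intro U hU
  -- injective enumerations of `U n \ {univ}`
  have hinf : ∀ n, (U n \ {Set.univ}).Infinite := fun n =>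
    (hU n).2.1.sdiff (Set.finite_singleton _)
  let e : ∀ n, ℕ ↪ (U n \ {Set.univ} : Set (Set Z)) := fun n => (hinf n).natEmbedding
  let V : ℕ → ℕ → Set Z := fun n m => (e n m : Set Z)
  have hVmem : ∀ n m, V n m ∈ U n := fun n m => (e n m).2.1
  have hVne : ∀ n m, V n m ≠ Set.univ := fun n m => (e n m).2.2
  have hVinj : ∀ n, Function.Injective (V n) := by
    intro n a b hab
    exact (e n).injective (Subtype.ext hab)
  obtain ⟨h, hh⟩ := hZ V (fun n m => (hU n).1.1 _ (hVmem n m)) (by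
    intro n z
    have hfin : {m | z ∉ V n m}.Finite := by
      have := (hU n).2.2 z
      refine Set.Finite.of_finite_image (f := V n) (this.subset ?_) ((hVinj n).injOn)
      rintro _ ⟨m, hm, rfl⟩
      exact ⟨hVmem n m, hm⟩
    have := hfin.eventually_cofinite_notMem
    rw [Nat.cofinite_eq_atTop] at this
    filter_upwards [this] with m hm
    by_contra hcon
    exact hm hcon)
  refine ⟨fun n => V n (h n), fun n => hVmem n _, ⟨⟨?_, ?_⟩, ?_, ?_⟩⟩
  · rintro u ⟨n, rfl⟩
    exact (hU n).1.1 _ (hVmem n _)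
  · ext z
    simp only [Set.mem_sUnion, Set.mem_range, Set.mem_univ, iff_true]
    obtain ⟨n, hn⟩ := (hh {z} (Set.finite_singleton z)).exists
    exact ⟨_, ⟨n, rfl⟩, hn rfl⟩
  · rintro ⟨n, hn⟩
    exact hVne n _ hn
  · intro F hF
    obtain ⟨n, hn⟩ := (hh F hF).exists
    exact ⟨_, ⟨n, rfl⟩, hn⟩

lemma hasGammaProperty_of_gammaSeq {Z : Type u} [TopologicalSpace Z] (hZ : GammaSeq Z) :
    HasGammaProperty Z := by
  intro U hU
  obtain ⟨V, hV, hV'⟩ := hZ U (fun n => (hU n).1.1) (fun n => (hU n).2.2)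
  have hne : ∀ n, V n ≠ Set.univ := fun n hn => (hU n).2.1 (hn ▸ hV n)
  refine ⟨V, hV, ⟨⟨?_, ?_⟩, ?_, ?_⟩⟩
  · rintro u ⟨n, rfl⟩
    exact (hU n).1.1 _ (hV n)
  · ext z
    simp only [Set.mem_sUnion, Set.mem_range, Set.mem_univ, iff_true]
    obtain ⟨n, hn⟩ := (hV' z).exists
    exact ⟨_, ⟨n, rfl⟩, hn⟩
  · exact range_infinite_of_eventually hV' hne
  · intro z
    exact finite_not_mem_of_eventually (hV' z)

/-- Finite intersections of members of the first `k+1` families. -/
lemma gammaSeq_aux {Z : Type u} [TopologicalSpace Z] (hZ : HasGammaProperty Z)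
    (W : ℕ → Set (Set Z)) (hopen : ∀ n, ∀ v ∈ W n, IsOpen v)
    (hW : ∀ n, ∀ F : Set Z, F.Finite → ∃ v ∈ W n, F ⊆ v) (hne : ∀ n, Set.univ ∉ W n) :
    ∃ V : ℕ → Set Z, (∀ n, V n ∈ W n) ∧ ∀ z, ∀ᶠ n in atTop, z ∈ V n := by
  classical
  let R : ℕ → Set (Set Z) := fun k => {w | ∃ f : ℕ → Set Z, (∀ i, f i ∈ W i) ∧ w = ⋂ i ∈ Finset.range (k + 1), f i}
  have hR : ∀ k, IsOmegaCover Z (R k) := by
    intro k
    have hfinR : ∀ F : Set Z, F.Finite → ∃ u ∈ R k, F ⊆ u := by
      intro F hF
      choose f hf hf' using fun i => hW i F hF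
      exact ⟨_, ⟨f, hf, rfl⟩, Set.subset_iInter₂ (fun i _ => hf' i)⟩
    refine ⟨⟨?_, ?_⟩, ?_, hfinR⟩
    · rintro w ⟨f, hf, rfl⟩
      exact isOpen_biInter_finset (fun i _ => hopen i _ (hf i))
    · ext z
      simp only [Set.mem_sUnion, Set.mem_univ, iff_true]
      obtain ⟨u, hu, hzu⟩ := hfinR {z} (Set.finite_singleton z)
      exact ⟨u, hu, hzu rfl⟩
    · rintro ⟨f, hf, hw⟩
      have : f 0 = Set.univ := by
        apply Set.eq_univ_of_univ_subset
        rw [hw]
        exact Set.biInter_subset_of_mem (by simp)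
      exact hne 0 (this ▸ hf 0)
  obtain ⟨T, hT, ⟨_, hTinf, hTfin⟩⟩ := hZ R hR
  choose f hf hTf using hT
  -- an injective choice of indices
  let e : ℕ ↪ Set.range T := hTinf.natEmbedding
  choose g hg using fun n => (e n).2
  have hginj : Function.Injective g := by
    intro a b hab
    apply e.injective
    apply Subtype.ext
    rw [← hg a, ← hg b, hab]
  have hgtop : Tendsto g atTop atTop := by
    rw [← Nat.cofinite_eq_atTop]; exact hginj.tendsto_cofinite
  obtain ⟨φ, hφ, hφg⟩ := Filter.strictMono_subseq_of_tendsto_atTop hgtop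
  let k : ℕ → ℕ := g ∘ φ
  have hk : ∀ i, i ≤ k i := fun i => hφg.id_le i
  have hkinj : Function.Injective (fun i => T (k i)) := by
    intro a b hab
    have h1 : T (g (φ a)) = T (g (φ b)) := hab
    rw [hg, hg] at h1
    exact hφ.injective (e.injective (Subtype.ext h1))
  refine ⟨fun i => f (k i) i, fun i => hf _ _, ?_⟩
  intro z
  have hfin : {i | z ∉ T (k i)}.Finite := by
    refine Set.Finite.of_finite_image (f := fun i => T (k i)) ((hTfin z).subset ?_) (hkinj.injOn)
    rintro _ ⟨m, hm, rfl⟩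
    exact ⟨⟨_, rfl⟩, hm⟩
  have := hfin.eventually_cofinite_notMem
  rw [Nat.cofinite_eq_atTop] at this
  filter_upwards [this] with i hi
  have hz : z ∈ T (k i) := by
    by_contra hcon
    exact hi hcon
  rw [hTf (k i)] at hz
  simp only [Set.mem_iInter] at hz
  exact hz i (Finset.mem_range.2 (Nat.lt_succ_of_le (hk i)))

lemma gammaSeq_of_hasGammaProperty {Z : Type u} [TopologicalSpace Z] (hZ : HasGammaProperty Z) :
    GammaSeq Z := by
  classical
  intro W hopen hW
  by_cases hfin : {n | Set.univ ∉ W n}.Finite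
  · choose V0 hV0 _ using fun n => hW n ∅ Set.finite_empty
    refine ⟨fun n => if Set.univ ∈ W n then Set.univ else V0 n, ?_, ?_⟩
    · intro n
      by_cases h : Set.univ ∈ W n <;> simp [h, hV0]
    · intro z
      have := hfin.eventually_cofinite_notMem
      rw [Nat.cofinite_eq_atTop] at this
      filter_upwards [this] with i hi
      have h : Set.univ ∈ W i := by
        by_contra hcon
        exact hi hcon
      simp [h]
  · -- the infinite case
    have hinf : {n | Set.univ ∉ W n}.Infinite := hfin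
    let φ : ℕ → ℕ := Nat.nth (fun n => Set.univ ∉ W n)
    have hφmem : ∀ i, Set.univ ∉ W (φ i) := fun i =>
      Nat.nth_mem_of_infinite (p := fun n => Set.univ ∉ W n) hinf i
    have hφmono : StrictMono φ := Nat.nth_strictMono hinf
    obtain ⟨V, hV, hV'⟩ := gammaSeq_aux hZ (fun i => W (φ i)) (fun i => hopen _)
      (fun i => hW _) hφmem
    have hrange : ∀ n, Set.univ ∉ W n → ∃ i, φ i = n := by
      intro n hn
      have : n ∈ Set.range φ := by
        rw [Nat.range_nth_of_infinite hinf]; exact hn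
      exact this
    refine ⟨fun n => if h : Set.univ ∈ W n then Set.univ else V (hrange n h).choose, ?_, ?_⟩
    · intro n
      by_cases h : Set.univ ∈ W n
      · simp [h]
      · simp only [h, dif_neg, not_false_eq_true]
        have := hV (hrange n h).choose
        rwa [(hrange n h).choose_spec] at this
    · intro z
      obtain ⟨K, hK⟩ := Filter.eventually_atTop.1 (hV' z)
      rw [Filter.eventually_atTop]
      refine ⟨φ K, ?_⟩
      intro n hn
      by_cases h : Set.univ ∈ W n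
      · simp [h]
      · simp only [h, dif_neg, not_false_eq_true]
        apply hK
        have h2 := (hrange n h).choose_spec
        rw [← h2] at hn
        exact hφmono.le_iff_le.1 hn

lemma GammaSeq.image {Y : Type u} {Z : Type v} [TopologicalSpace Y] [TopologicalSpace Z]
    (hY : GammaSeq Y) (π : Y → Z) (hπ : Continuous π) (hs : Function.Surjective π) :
    GammaSeq Z := by
  intro W hopen hW
  obtain ⟨V, hV, hV'⟩ := hY (fun n => {v | ∃ w ∈ W n, v = π ⁻¹' w}) (by
    rintro n v ⟨w, hw, rfl⟩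
    exact (hopen n w hw).preimage hπ) (by
    intro n F hF
    obtain ⟨w, hw, hw'⟩ := hW n (π '' F) (hF.image π)
    exact ⟨_, ⟨w, hw, rfl⟩, Set.image_subset_iff.1 hw'⟩)
  choose w hw hw' using hV
  refine ⟨w, hw, ?_⟩
  intro z
  obtain ⟨y, rfl⟩ := hs z
  filter_upwards [hV' y] with n hn
  rw [hw' n] at hn
  exact hn

lemma GammaSeq.s1Seq {Z : Type u} [TopologicalSpace Z] (hZ : GammaSeq Z) : S1Seq Z := by
  intro V hopen hV
  obtain ⟨T, hT, hT'⟩ := hZ (fun n => Set.range (V n)) (by
    rintro n v ⟨m, rfl⟩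
    exact hopen n m) (by
    intro n F hF
    obtain ⟨m, hm⟩ := (eventually_subset_of_finite hF (hV n)).exists
    exact ⟨_, ⟨m, rfl⟩, hm⟩)
  choose h hh using hT
  refine ⟨h, fun F hF => ?_⟩
  have := (eventually_subset_of_finite hF hT').frequently
  refine this.mono ?_
  intro n hn
  rw [hh n]
  exact hn

end Pool.Agent.helper71.Sel
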