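import Mathlib
import Pool.Agent.helper71.SelLemmas

set_option autoImplicit false

universe u v

namespace Pool.Agent.helper71.Sel

open Set Filter Cardinal Topology

lemma exists_cylinder_subset {O : Set (ℕ → Bool)} (hO : IsOpen O) {x : ℕ → Bool} (hx : x ∈ O) :
    ∃ m : ℕ, ∀ x' : ℕ → Bool, (∀ i < m, x' i = x i) → x' ∈ O := by
  obtain ⟨s, ⟨z, n, rfl⟩, hxs, hsO⟩ :=
    (PiNat.isTopologicalBasis_cylinders (fun _ : ℕ => Bool)).exists_subset_of_mem_open hx hO
  refine ⟨n, fun x' hx' => hsO ?_⟩
  rw [PiNat.mem_cylinder_iff] at hxs ⊢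
  intro i hi
  rw [hx' i hi, hxs i hi]

lemma finite_bounded_support (l : ℕ) : {x : ℕ → Bool | ∀ i, l ≤ i → x i = false}.Finite := by
  refine Set.Finite.of_injOn (f := fun (x : ℕ → Bool) (i : Fin l) => x i) (t := Set.univ)
    (fun _ _ => Set.mem_univ _) ?_ Set.finite_univ
  intro x hx y hy hxy
  funext i
  by_cases hi : i < l
  · exact congrFun hxy ⟨i, hi⟩
  · rw [hx i (not_lt.1 hi), hy i (not_lt.1 hi)]

lemma isOpen_forall_gap {Y : Type u} [TopologicalSpace Y] {W : Set ((ℕ → Bool) × Y)}
    (hW : IsOpen W) (l m : ℕ) :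
    IsOpen {y : Y | ∀ x : ℕ → Bool, (∀ i, l ≤ i → i < m → x i = false) → (x, y) ∈ W} := by
  have hK : IsClosed {p : (ℕ → Bool) × Y | ∀ i, l ≤ i → i < m → p.1 i = false} := by
    simp only [Set.ofPred_forall]
    refine isClosed_iInter fun i => isClosed_iInter fun _ => isClosed_iInter fun _ => ?_
    exact isClosed_eq ((continuous_apply i).comp continuous_fst) continuous_const
  have h := isClosedMap_snd_of_compactSpace (X := ℕ → Bool) (Y := Y) _
    (hK.inter hW.isClosed_compl)
  rw [← isOpen_compl_iff] at h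
  convert h using 1
  ext y
  simp only [Set.mem_ofPred_eq, Set.mem_compl_iff, Set.mem_image, Set.mem_inter_iff, Prod.exists,
    exists_eq_right, not_exists, not_and, not_not]

/-- The key selection lemma. -/
lemma key {Y : Type u} [TopologicalSpace Y] (hY : GammaSeq Y)
    (W : ℕ → Set ((ℕ → Bool) × Y)) (hopen : ∀ j, IsOpen (W j))
    (hW : ∀ Φ : Set ((ℕ → Bool) × Y), Φ.Finite → Φ ⊆ FinSets ×ˢ Set.univ →
      ∃ j, Φ ⊆ W j) :
    ∃ (a : ℕ → ℕ) (J : ℕ → ℕ), StrictMono a ∧
      ∀ y : Y, ∀ᶠ k in atTop, ∀ x : ℕ → Bool,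
        (∀ i, a k ≤ i → i < a (k + 1) → x i = false) → (x, y) ∈ W (J k) := by
  classical
  obtain ⟨V, hV, hV'⟩ := hY
    (fun l => {v | ∃ j m : ℕ, l < m ∧
      v = {y : Y | ∀ x : ℕ → Bool, (∀ i, l ≤ i → i < m → x i = false) → (x, y) ∈ W j}})
    (by
      rintro l v ⟨j, m, _, rfl⟩
      exact isOpen_forall_gap (hopen j) l m)
    (by
      intro l F hF
      set P : Set (ℕ → Bool) := {x : ℕ → Bool | ∀ i, l ≤ i → x i = false} with hP
      have hPfin : P.Finite := finite_bounded_support l
      obtain ⟨j, hj⟩ := hW (P ×ˢ F) (hPfin.prod hF) (by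
        rintro ⟨x, y⟩ ⟨hx, _⟩
        refine ⟨?_, Set.mem_univ _⟩
        refine (Set.finite_Iio l).subset ?_
        intro n hn
        by_contra hcon
        have h1 : x n = false := hx n (not_lt.1 hcon)
        have h2 : x n = true := hn
        rw [h2] at h1
        exact Bool.noConfusion h1)
      have hm : ∀ p : (ℕ → Bool) × Y, p ∈ P ×ˢ F → ∃ m : ℕ, ∀ x' : ℕ → Bool,
          (∀ i < m, x' i = p.1 i) → (x', p.2) ∈ W j := by
        intro p hp
        have hO : IsOpen {x' : ℕ → Bool | (x', p.2) ∈ W j} :=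
          (hopen j).preimage (by fun_prop)
        exact exists_cylinder_subset hO (hj hp)
      choose! m hm using hm
      obtain ⟨M, hM⟩ := ((hPfin.prod hF).image m).bddAbove
      refine ⟨_, ⟨j, max M (l + 1), by omega, rfl⟩, ?_⟩
      intro y hy x hx
      -- truncate x
      let x0 : ℕ → Bool := fun i => if i < l then x i else false
      have hx0 : x0 ∈ P := by
        intro i hi
        simp [x0, not_lt.2 hi]
      have hmem : ((x0, y) : (ℕ → Bool) × Y) ∈ P ×ˢ F := ⟨hx0, hy⟩
      refine hm (x0, y) hmem x ?_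
      intro i hi
      have hiM : i < max M (l + 1) :=
        lt_of_lt_of_le (lt_of_lt_of_le hi (hM ⟨_, hmem, rfl⟩)) (le_max_left _ _)
      by_cases hil : i < l
      · simp [x0, hil]
      · simp only [x0, hil, if_false]
        exact hx i (not_lt.1 hil) hiM)
  choose j m hm hV using hV
  -- the sequence `a`
  let a : ℕ → ℕ := fun k => Nat.rec 0 (fun _ p => m p) k
  have ha : ∀ k, a (k + 1) = m (a k) := fun k => rfl
  have hamono : StrictMono a := strictMono_nat_of_lt_succ (fun k => by rw [ha]; exact hm _)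
  refine ⟨a, fun k => j (a k), hamono, ?_⟩
  intro y
  have h1 := hamono.tendsto_atTop.eventually (hV' y)
  filter_upwards [h1] with k hk
  rw [hV] at hk
  rw [ha]
  exact hk

/-- A fast growing subset of `ω`. -/
lemma exists_fast (a : ℕ → ℕ) (ha : StrictMono a) :
    ∃ d ∈ InfSets, ∀ n, enum d n = a ((n + 1) ^ 2 + n) := by
  classical
  let g : ℕ → ℕ := fun n => a ((n + 1) ^ 2 + n)
  have hg : StrictMono g := by
    apply strictMono_nat_of_lt_succ
    intro n
    apply ha
    nlinarith
  let d : ℕ → Bool := fun i => decide (i ∈ Set.range g)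
  have hset : {n | d n = true} = Set.range g := by
    ext i
    simp [d]
  have hdinf : {n | d n = true}.Infinite := by
    rw [hset]
    exact Set.infinite_range_of_injective hg.injective
  refine ⟨d, hdinf, ?_⟩
  have h2 : StrictMono (enum d) := Nat.nth_strictMono hdinf
  have h3 : Set.range (enum d) = Set.range g := by
    rw [← hset]
    exact Nat.range_nth_of_infinite hdinf
  have h4 : enum d = g := (StrictMono.range_inj h2 hg).1 h3
  intro n
  rw [h4]

/-- If `d n ≤ min F n` infinitely often then all members of `F` miss infinitely many common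
intervals. -/
lemma gaps_of_le (a : ℕ → ℕ) (ha : StrictMono a) (d : ℕ → Bool)
    (hd : ∀ n, enum d n = a ((n + 1) ^ 2 + n)) (F : Finset (ℕ → Bool)) (hF : F.Nonempty)
    (hFinf : (F : Set (ℕ → Bool)) ⊆ InfSets)
    (h : {n | enum d n ≤ F.inf' hF (fun x => enum x n)}.Infinite) :
    ∃ᶠ k in atTop, ∀ x ∈ F, ∀ i, a k ≤ i → i < a (k + 1) → x i = false := by
  classical
  rw [Filter.frequently_atTop]
  intro K
  obtain ⟨n, hn, hnK⟩ := h.exists_gt (max K F.card)
  have hnK1 : K < n := lt_of_le_of_lt (le_max_left _ _) hnK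
  have hnF : F.card < n := lt_of_le_of_lt (le_max_right _ _) hnK
  have hn' : enum d n ≤ F.inf' hF (fun x => enum x n) := hn
  rw [Finset.le_inf'_iff] at hn'
  by_contra hcon
  push Not at hcon
  -- for each k in [n, n + (n+1)^2) pick a point
  have hpick : ∀ k, n ≤ k → ∃ i, (∃ x ∈ F, x i = true) ∧ a k ≤ i ∧ i < a (k + 1) := by
    intro k hk
    obtain ⟨x, hx, i, hi1, hi2, hi3⟩ := hcon k (by omega)
    refine ⟨i, ⟨x, hx, ?_⟩, hi1, hi2⟩
    simpa using hi3
  choose! p hp hp1 hp2 using hpick
  set N := (n + 1) ^ 2 + n with hN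
  let U : Finset ℕ := F.biUnion (fun x => (Finset.range (a N)).filter (fun i => x i = true))
  have hcard : U.card ≤ F.card * n := by
    refine Finset.card_biUnion_le_card_mul _ _ _ ?_
    intro x hx
    rw [← Nat.count_eq_card_filter_range]
    have hxinf : (Set.ofPred fun k => x k = true).Infinite := hFinf hx
    have : a N ≤ Nat.nth (fun k => x k = true) n := by
      have := hn' x hx
      rw [hd] at this
      exact this
    exact (Nat.count_le_iff_le_nth hxinf).2 this
  have hmaps : ∀ k ∈ Finset.Ico n N, p k ∈ U := by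
    intro k hk
    rw [Finset.mem_Ico] at hk
    obtain ⟨x, hx, hxp⟩ := hp k hk.1
    simp only [U, Finset.mem_biUnion, Finset.mem_filter, Finset.mem_range]
    refine ⟨x, hx, ?_, hxp⟩
    exact lt_of_lt_of_le (hp2 k hk.1) (ha.monotone hk.2)
  have hinj : Set.InjOn p (Finset.Ico n N : Finset ℕ) := by
    intro k hk k' hk' hkk'
    simp only [Finset.coe_Ico, Set.mem_Ico] at hk hk'
    by_contra hne
    rcases lt_or_gt_of_ne hne with hlt | hlt
    · have h1 := hp2 k hk.1
      have h2 := hp1 k' hk'.1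
      have h3 : a (k + 1) ≤ a k' := ha.monotone hlt
      omega
    · have h1 := hp2 k' hk'.1
      have h2 := hp1 k hk.1
      have h3 : a (k' + 1) ≤ a k := ha.monotone hlt
      omega
  have := Finset.card_le_card_of_injOn p hmaps hinj
  rw [Nat.card_Ico] at this
  have h5 : (n + 1) ^ 2 ≤ F.card * n := by
    have : N - n = (n + 1) ^ 2 := by omega
    omega
  nlinarith

end Pool.Agent.helper71.Sel
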