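import Mathlib
import Pool.Agent.helper71.SelKey

set_option autoImplicit false

universe u v

namespace Pool.Agent.helper71.Sel

open Set Filter Cardinal Topology

/-- There are no `ℵ₀`-fin-unbounded sets. -/
lemma not_finUnbounded_aleph0 (X : Set (ℕ → Bool)) : ¬ FinUnbounded ℵ₀ X := by
  classical
  rintro ⟨hX, hcard, h⟩
  have hinf : X.Infinite := by
    rw [← Set.infinite_coe_iff]
    exact Cardinal.infinite_iff.2 hcard
  let e : ℕ ↪ X := hinf.natEmbedding
  -- a strictly increasing function eventually dominating all e i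
  let f : ℕ → ℕ := fun n => ∑ i ∈ Finset.range (n + 1), ∑ j ∈ Finset.range (n + 1),
    (enum (e i) j + 1)
  have hf : ∀ i n, i ≤ n → enum (e i) n < f n := by
    intro i n hin
    have h1 : enum (e i) n + 1 ≤ ∑ j ∈ Finset.range (n + 1), (enum (e i) j + 1) :=
      Finset.single_le_sum (f := fun j => enum (e i) j + 1) (fun _ _ => Nat.zero_le _)
        (Finset.mem_range.2 (Nat.lt_succ_self n))
    have h2 : ∑ j ∈ Finset.range (n + 1), (enum (e i) j + 1) ≤ f n :=
      Finset.single_le_sum (f := fun i => ∑ j ∈ Finset.range (n + 1), (enum (e i) j + 1))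
        (fun _ _ => Nat.zero_le _) (Finset.mem_range.2 (Nat.lt_succ_of_le hin))
    omega
  have hfmono : StrictMono f := by
    apply strictMono_nat_of_lt_succ
    intro n
    have h1 : f n ≤ ∑ i ∈ Finset.range (n + 1), ∑ j ∈ Finset.range (n + 2),
        (enum (e i) j + 1) := by
      apply Finset.sum_le_sum
      intro i _
      apply Finset.sum_le_sum_of_subset
      exact Finset.range_mono (by omega)
    have h2 : f (n + 1) = ∑ i ∈ Finset.range (n + 1), ∑ j ∈ Finset.range (n + 2),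
        (enum (e i) j + 1) + ∑ j ∈ Finset.range (n + 2), (enum (e (n + 1)) j + 1) := by
      simp only [f]
      rw [Finset.sum_range_succ]
    have h3 : 0 < ∑ j ∈ Finset.range (n + 2), (enum (e (n + 1)) j + 1) := by
      apply Finset.sum_pos
      · intros; omega
      · exact ⟨0, Finset.mem_range.2 (by omega)⟩
    omega
  let d : ℕ → Bool := fun i => decide (i ∈ Set.range f)
  have hset : {n | d n = true} = Set.range f := by
    ext i
    simp [d]
  have hdinf : {n | d n = true}.Infinite := by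
    rw [hset]
    exact Set.infinite_range_of_injective hfmono.injective
  have hd : enum d = f := by
    apply (StrictMono.range_inj (Nat.nth_strictMono hdinf) hfmono).1
    rw [← hset]
    exact Nat.range_nth_of_infinite hdinf
  obtain ⟨S, hSX, hScard, hS⟩ := h d hdinf
  have hSfin : S.Finite := Cardinal.lt_aleph0_iff_set_finite.1 hScard
  obtain ⟨i, hi⟩ : ∃ i, (e i : ℕ → Bool) ∉ S := by
    by_contra hcon
    push Not at hcon
    have : (Set.range (fun i => (e i : ℕ → Bool))).Infinite := by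
      apply Set.infinite_range_of_injective
      intro a b hab
      exact e.injective (Subtype.ext hab)
    exact this (hSfin.subset (by rintro _ ⟨i, rfl⟩; exact hcon i))
  have h1 := hS {(e i : ℕ → Bool)} (Finset.singleton_nonempty _) (by
    intro x hx
    simp only [Finset.coe_singleton, Set.mem_singleton_iff] at hx
    subst hx
    exact ⟨(e i).2, hi⟩)
  obtain ⟨n, hn, hin⟩ := h1.exists_gt i
  have h2 : enum d n ≤ enum (e i) n := by simpa using hn
  rw [hd] at h2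
  exact absurd h2 (not_le.2 (hf i n hin.le))

/-- One step of the construction. -/
lemma step {κ : Cardinal.{0}} (hκ : κ.IsRegular) {X : Set (ℕ → Bool)}
    (hX : FinUnbounded κ X) {Y : Type u} [TopologicalSpace Y] (hY : GammaSeq Y)
    (hprod : ∀ S : Set (ℕ → Bool), S ⊆ X → #S < κ →
      S1Seq ((S ∪ FinSets : Set (ℕ → Bool)) × Y))
    (U : ℕ → ℕ → Set ((ℕ → Bool) × Y)) (hopen : ∀ n m, IsOpen (U n m))
    (hU : ∀ n, ∀ x ∈ X ∪ FinSets, ∀ y : Y, ∀ᶠ m in atTop, (x, y) ∈ U n m)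
    (S : Set (ℕ → Bool)) (hSX : S ⊆ X) (hS : #S < κ) :
    ∃ (h : ℕ → ℕ) (S' : Set (ℕ → Bool)), S' ⊆ X ∧ #S' < κ ∧ S ⊆ S' ∧
      ∀ F : Set (ℕ → Bool), F.Finite → F ⊆ S ∪ (X \ S') ∪ FinSets →
        ∀ G : Set Y, G.Finite → ∃ n, F ×ˢ G ⊆ U n (h n) := by
  classical
  obtain ⟨h, hh⟩ := hprod S hSX hS
    (fun n m => (fun p : (S ∪ FinSets : Set (ℕ → Bool)) × Y => ((p.1 : ℕ → Bool), p.2)) ⁻¹'
      (U n m))
    (fun n m => (hopen n m).preimage (by fun_prop))
    (by
      rintro n ⟨⟨x, hx⟩, y⟩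
      have hx' : x ∈ X ∪ FinSets := hx.imp (fun h => hSX h) id
      exact hU n x hx' y)
  -- good selections on finite subsets of `(S ∪ Fin) × Y`
  have hgood : ∀ F : Set (ℕ → Bool), F.Finite → F ⊆ S ∪ FinSets → ∀ G : Set Y, G.Finite →
      ∃ n, F ×ˢ G ⊆ U n (h n) := by
    intro F hF hFS G hG
    have hfin : (((fun p : (S ∪ FinSets : Set (ℕ → Bool)) × Y => ((p.1 : ℕ → Bool), p.2))) ⁻¹'
        (F ×ˢ G)).Finite := by
      apply (hF.prod hG).preimage
      rintro ⟨⟨x, hx⟩, y⟩ _ ⟨⟨x', hx'⟩, y'⟩ _ hxy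
      simp only [Prod.mk.injEq] at hxy
      simp only [Prod.mk.injEq, Subtype.mk.injEq]
      exact hxy
    obtain ⟨n, hn⟩ := (hh _ hfin).exists
    refine ⟨n, ?_⟩
    rintro ⟨x, y⟩ ⟨hx, hy⟩
    exact hn (a := (⟨x, hFS hx⟩, y)) ⟨hx, hy⟩
  -- for each finite `F0 ⊆ S` a set of exceptions
  have hF0 : ∀ F0 : Finset S, ∃ T : Set (ℕ → Bool), T ⊆ X ∧ #T < κ ∧
      ∀ F1 : Finset (ℕ → Bool), (F1 : Set (ℕ → Bool)) ⊆ X \ T → ∀ E : Set (ℕ → Bool),
        E.Finite → E ⊆ FinSets → ∀ G : Set Y, G.Finite →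
          ∃ n, ∀ x y, (x ∈ F1 ∨ x ∈ E ∨ ∃ s ∈ F0, (s : ℕ → Bool) = x) → y ∈ G →
            (x, y) ∈ U n (h n) := by
    intro F0
    let W : ℕ → Set ((ℕ → Bool) × Y) := fun n =>
      U n (h n) ∩ ⋂ s ∈ F0, {p | ((s : ℕ → Bool), p.2) ∈ U n (h n)}
    have hWopen : ∀ n, IsOpen (W n) := by
      intro n
      refine (hopen _ _).inter (isOpen_biInter_finset fun s _ => ?_)
      exact (hopen n (h n)).preimage (by fun_prop)
    have hWcov : ∀ Φ : Set ((ℕ → Bool) × Y), Φ.Finite → Φ ⊆ FinSets ×ˢ Set.univ →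
        ∃ j, Φ ⊆ W j := by
      intro Φ hΦ hΦF
      obtain ⟨n, hn⟩ := hgood (Prod.fst '' Φ ∪ (fun s : S => (s : ℕ → Bool)) '' (F0 : Set S))
        ((hΦ.image _).union (F0.finite_toSet.image _)) (by
          rintro x (⟨p, hp, rfl⟩ | ⟨s, _, rfl⟩)
          · exact Or.inr (hΦF hp).1
          · exact Or.inl s.2) (Prod.snd '' Φ) (hΦ.image _)
      refine ⟨n, ?_⟩
      intro p hp
      refine ⟨hn ⟨Or.inl ⟨p, hp, rfl⟩, ⟨p, hp, rfl⟩⟩, ?_⟩
      simp only [Set.mem_iInter]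
      intro s hs
      exact hn ⟨Or.inr ⟨s, hs, rfl⟩, ⟨p, hp, rfl⟩⟩
    obtain ⟨a, J, ha, haJ⟩ := key hY W hWopen hWcov
    obtain ⟨d, hdinf, hd⟩ := exists_fast a ha
    obtain ⟨T, hTX, hTcard, hT⟩ := hX.2.2 d hdinf
    refine ⟨T, hTX, hTcard, ?_⟩
    intro F1 hF1 E hE hEF G hG
    -- frequently all members of `F1` miss the interval
    have h1 : ∃ᶠ k in atTop, ∀ x ∈ F1, ∀ i, a k ≤ i → i < a (k + 1) → x i = false := by
      rcases F1.eq_empty_or_nonempty with rfl | hne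
      · exact (Filter.Eventually.of_forall (by simp)).frequently
      · exact gaps_of_le a ha d hd F1 hne (fun x hx => hX.1 (hF1 hx).1) (hT F1 hne hF1)
    have h2 : ∀ᶠ k in atTop, ∀ x ∈ E, ∀ i, a k ≤ i → i < a (k + 1) → x i = false := by
      rw [Filter.eventually_all_finite hE]
      intro x hx
      obtain ⟨N, hN⟩ := (show {n | x n = true}.Finite from hEF hx).bddAbove
      filter_upwards [ha.tendsto_atTop.eventually_gt_atTop N] with k hk i hi _
      by_contra hcon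
      have : x i = true := by simpa using hcon
      have := hN this
      omega
    have h3 : ∀ᶠ k in atTop, ∀ y ∈ G, ∀ x : ℕ → Bool,
        (∀ i, a k ≤ i → i < a (k + 1) → x i = false) → (x, y) ∈ W (J k) := by
      rw [Filter.eventually_all_finite hG]
      intro y _
      exact haJ y
    obtain ⟨k, hk1, hk2, hk3⟩ := (h1.and_eventually (h2.and h3)).exists
    refine ⟨J k, ?_⟩
    rintro x y (hx | hx | ⟨s, hs, rfl⟩) hy
    · exact (hk3 y hy x (hk1 x hx)).1
    · exact (hk3 y hy x (hk2 x hx)).1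
    · have := (hk3 y hy (fun _ => false) (fun _ _ _ => rfl)).2
      simp only [Set.mem_iInter] at this
      exact this s hs
  choose T hTX hTcard hT using hF0
  refine ⟨h, S ∪ ⋃ F0 : Finset S, T F0, ?_, ?_, Set.subset_union_left, ?_⟩
  · exact Set.union_subset hSX (Set.iUnion_subset hTX)
  · have hcardFS : #(Finset S) < κ := by
      rcases finite_or_infinite S with hfin | hinf
      · exact lt_of_lt_of_le (Cardinal.lt_aleph0_of_finite _) hκ.1
      · rw [Cardinal.mk_finset_of_infinite]; exact hS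
    have h1 : #(⋃ F0 : Finset S, T F0 : Set (ℕ → Bool)) < κ :=
      (Cardinal.card_iUnion_lt_iff_forall_of_isRegular hκ hcardFS).2 hTcard
    exact lt_of_le_of_lt (Cardinal.mk_union_le _ _) (Cardinal.add_lt_of_lt hκ.1 hS h1)
  · intro F hF hFsub G hG
    let F0 : Finset S := (hF.preimage (f := fun s : S => (s : ℕ → Bool))
      (Subtype.val_injective.injOn)).toFinset
    let F1 : Finset (ℕ → Bool) := hF.toFinset.filter (fun x => x ∈ X ∧ x ∉ T F0)
    obtain ⟨n, hn⟩ := hT F0 F1 (by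
      intro x hx
      simp only [F1, Finset.coe_filter, Set.mem_ofPred_eq] at hx
      exact hx.2) (F ∩ FinSets) (hF.inter_of_left _) Set.inter_subset_right G hG
    refine ⟨n, ?_⟩
    rintro ⟨x, y⟩ ⟨hx, hy⟩
    refine hn x y ?_ hy
    rcases hFsub hx with (hxS | ⟨hxX, hxS'⟩) | hxE
    · right; right
      exact ⟨⟨x, hxS⟩, by simpa [F0] using hx, rfl⟩
    · left
      simp only [F1, Finset.mem_filter, Set.Finite.mem_toFinset]
      refine ⟨hx, hxX, ?_⟩
      intro hcon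
      exact hxS' (Or.inr (Set.mem_iUnion.2 ⟨F0, hcon⟩))
    · right; left
      exact ⟨hx, hxE⟩

/-- The core theorem. -/
theorem core {κ : Cardinal.{0}} (hκ : κ.IsRegular) {X : Set (ℕ → Bool)}
    (hX : FinUnbounded κ X) {Y : Type u} [TopologicalSpace Y] (hY : GammaSeq Y)
    (hprod : ∀ S : Set (ℕ → Bool), S ⊆ X → #S < κ →
      S1Seq ((S ∪ FinSets : Set (ℕ → Bool)) × Y)) :
    S1GammaOmega ((X ∪ FinSets : Set (ℕ → Bool)) × Y) := by
  classical
  apply s1GammaOmega_of_s1Seq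
  intro V hVopen hV
  -- extend to open subsets of `P(ω) × Y`
  have hind : IsInducing (fun p : (X ∪ FinSets : Set (ℕ → Bool)) × Y => ((p.1 : ℕ → Bool), p.2)) :=
    (IsInducing.subtypeVal (t := X ∪ FinSets)).prodMap IsInducing.id
  have hext : ∀ n m, ∃ O : Set ((ℕ → Bool) × Y), IsOpen O ∧
      (fun p : (X ∪ FinSets : Set (ℕ → Bool)) × Y => ((p.1 : ℕ → Bool), p.2)) ⁻¹' O = V n m :=
    fun n m => hind.isOpen_iff.1 (hVopen n m)
  choose U hUopen hUV using hext
  have hU : ∀ n, ∀ x ∈ X ∪ FinSets, ∀ y : Y, ∀ᶠ m in atTop, (x, y) ∈ U n m := by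
    intro n x hx y
    filter_upwards [hV n (⟨x, hx⟩, y)] with m hm
    rw [← hUV] at hm
    exact hm
  -- the recursion
  have hstep : ∀ (i : ℕ) (S : {S : Set (ℕ → Bool) // S ⊆ X ∧ #S < κ}),
      ∃ (h : ℕ → ℕ) (S' : {S : Set (ℕ → Bool) // S ⊆ X ∧ #S < κ}), S.1 ⊆ S'.1 ∧
        ∀ F : Set (ℕ → Bool), F.Finite → F ⊆ S.1 ∪ (X \ S'.1) ∪ FinSets →
          ∀ G : Set Y, G.Finite → ∃ n, F ×ˢ G ⊆ U (Nat.pair i n) (h n) := by
    intro i S
    obtain ⟨h, S', h1, h2, h3, h4⟩ := step hκ hX hY hprod (fun n m => U (Nat.pair i n) m)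
      (fun n m => hUopen _ _) (fun n => hU _) S.1 S.2.1 S.2.2
    exact ⟨h, ⟨S', h1, h2⟩, h3, h4⟩
  choose hsel nxt hsub hcov using hstep
  let S0 : {S : Set (ℕ → Bool) // S ⊆ X ∧ #S < κ} := ⟨∅, Set.empty_subset _, by
    rw [Cardinal.mk_eq_zero]; exact hκ.pos⟩
  let S : ℕ → {S : Set (ℕ → Bool) // S ⊆ X ∧ #S < κ} := fun i => Nat.rec S0 (fun i T => nxt i T) i
  have hSsucc : ∀ i, S (i + 1) = nxt i (S i) := fun i => rfl
  have hSmono : Monotone (fun i => (S i).1) :=
    monotone_nat_of_le_succ (fun i => by rw [hSsucc]; exact hsub i (S i))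
  let H : ℕ → ℕ := fun n => hsel (Nat.unpair n).1 (S (Nat.unpair n).1) (Nat.unpair n).2
  -- it suffices to cover every finite set at least once
  have hcover : ∀ Φ : Set ((X ∪ FinSets : Set (ℕ → Bool)) × Y), Φ.Finite → ∀ K : ℕ,
      ∃ n, K ≤ n ∧ Φ ⊆ V n (H n) := by
    intro Φ hΦ K
    set F : Set (ℕ → Bool) := (fun p : (X ∪ FinSets : Set (ℕ → Bool)) × Y => (p.1 : ℕ → Bool)) '' Φ
      with hFdef
    have hFfin : F.Finite := hΦ.image _
    have hGfin : (Prod.snd '' Φ).Finite := hΦ.image _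
    have hFX : F ⊆ X ∪ FinSets := by
      rintro _ ⟨p, _, rfl⟩
      exact p.1.2
    -- find the stage
    have hstage : ∃ i, K ≤ i ∧ ∀ x ∈ F, (∃ j, x ∈ (S j).1) → x ∈ (S i).1 := by
      have : ∀ x ∈ F, ∃ i, (∃ j, x ∈ (S j).1) → x ∈ (S i).1 := by
        intro x _
        by_cases hx : ∃ j, x ∈ (S j).1
        · obtain ⟨j, hj⟩ := hx
          exact ⟨j, fun _ => hj⟩
        · exact ⟨0, fun h => absurd h hx⟩
      choose! ι hι using this
      obtain ⟨B, hB⟩ := (hFfin.image ι).bddAbove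
      refine ⟨max K B, le_max_left _ _, ?_⟩
      intro x hx hj
      exact hSmono (le_trans (hB ⟨x, hx, rfl⟩) (le_max_right _ _)) (hι x hx hj)
    obtain ⟨i, hKi, hi⟩ := hstage
    obtain ⟨n, hn⟩ := hcov i (S i) F hFfin (by
      intro x hx
      rcases hFX hx with hxX | hxE
      · by_cases hj : ∃ j, x ∈ (S j).1
        · exact Or.inl (Or.inl (hi x hx hj))
        · left; right
          refine ⟨hxX, ?_⟩
          rw [← hSsucc]
          intro hcon
          exact hj ⟨i + 1, hcon⟩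
      · exact Or.inr hxE) (Prod.snd '' Φ) hGfin
    refine ⟨Nat.pair i n, le_trans hKi (Nat.left_le_pair i n), ?_⟩
    intro p hp
    have : H (Nat.pair i n) = hsel i (S i) n := by simp [H]
    rw [this, ← hUV]
    exact hn ⟨⟨p, hp, rfl⟩, ⟨p, hp, rfl⟩⟩
  refine ⟨H, ?_⟩
  intro Φ hΦ
  rw [Filter.frequently_atTop]
  intro K
  obtain ⟨n, hn, hn'⟩ := hcover Φ hΦ K
  exact ⟨n, hn, hn'⟩

end Pool.Agent.helper71.Sel
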