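import Mathlib
import Pool.Agent.helper71.SelCore

set_option autoImplicit false

universe u v

namespace Pool.Agent.helper71.Sel

open Set Filter Cardinal Topology TopologicalSpace

lemma finSets_infinite : FinSets.Infinite := by
  classical
  let f : ℕ → (ℕ → Bool) := fun n i => decide (i = n)
  have hf : Function.Injective f := by
    intro a b hab
    have := congrFun hab a
    simpa [f] using this
  refine (Set.infinite_range_of_injective hf).mono ?_
  rintro _ ⟨n, rfl⟩
  refine (Set.finite_singleton n).subset ?_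
  intro i hi
  simpa [f] using hi

lemma finSets_countable : FinSets.Countable := by
  have : FinSets ⊆ ⋃ l : ℕ, {x : ℕ → Bool | ∀ i, l ≤ i → x i = false} := by
    intro x hx
    obtain ⟨N, hN⟩ := (show {n | x n = true}.Finite from hx).bddAbove
    rw [Set.mem_iUnion]
    refine ⟨N + 1, fun i hi => ?_⟩
    by_contra hcon
    have : x i = true := by simpa using hcon
    have := hN this
    omega
  exact (Set.countable_iUnion fun l => (finite_bounded_support l).countable).mono this

/-- In a perfectly normal space open sets are unions of countably many cozero sets. -/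
lemma perf_fun {Y : Type u} [TopologicalSpace Y] [PerfectlyNormalSpace Y] {B : Set Y}
    (hB : IsOpen B) : ∃ f : ℕ → (Y → ℝ), (∀ k, Continuous (f k)) ∧
      ∀ y, y ∈ B ↔ ∃ k, 0 < f k y := by
  obtain ⟨U, hU, hBU⟩ := isGδ_iff_eq_iInter_nat.1 (hB.isClosed_compl.isGδ)
  have h : ∀ k, ∃ f : C(Y, ℝ), Set.EqOn f 0 Bᶜ ∧ Set.EqOn f 1 (U k)ᶜ ∧
      ∀ x, f x ∈ Set.Icc (0 : ℝ) 1 := by
    intro k
    apply exists_continuous_zero_one_of_isClosed hB.isClosed_compl (hU k).isClosed_compl
    rw [Set.disjoint_compl_right_iff_subset, hBU]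
    exact Set.iInter_subset _ k
  choose f hf0 hf1 _ using h
  refine ⟨fun k => f k, fun k => (f k).continuous, ?_⟩
  intro y
  constructor
  · intro hy
    have : y ∉ ⋂ k, U k := by rw [← hBU]; exact fun h => h hy
    rw [Set.mem_iInter] at this
    push Not at this
    obtain ⟨k, hk⟩ := this
    refine ⟨k, ?_⟩
    have h1 : (f k) y = 1 := hf1 k hk
    show 0 < (f k) y
    rw [h1]
    exact one_pos
  · rintro ⟨k, hk⟩
    by_contra hy
    have h0 : (f k) y = 0 := hf0 k hy
    have hk' : 0 < (f k) y := hk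
    rw [h0] at hk'
    exact lt_irrefl _ hk'

/-- Reduction of a product with a perfectly normal factor to a product with a metric factor. -/
lemma s1Seq_prod_of_productively {T : Type} [TopologicalSpace T] [SecondCountableTopology T]
    (hT : ProductivelyS1 T) {Y : Type u} [TopologicalSpace Y] [T35Space Y]
    [PerfectlyNormalSpace Y] [Infinite Y] (hY : GammaSeq Y) : S1Seq (T × Y) := by
  classical
  intro V hVopen hV
  let A : Type := countableBasis T
  have hAc : Countable A := (countable_countableBasis T).to_subtype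
  let B : A → ℕ → ℕ → Set Y := fun a n m =>
    {y | ∃ O : Set Y, IsOpen O ∧ y ∈ O ∧ (a : Set T) ×ˢ O ⊆ V n m}
  have hB : ∀ a n m, IsOpen (B a n m) := by
    intro a n m
    rw [isOpen_iff_forall_mem_open]
    rintro y ⟨O, hO, hyO, hsub⟩
    exact ⟨O, fun z hz => ⟨O, hO, hz, hsub⟩, hO, hyO⟩
  choose f hfc hfB using fun a n m => perf_fun (hB a n m)
  let e : ℕ ↪ Y := Infinite.natEmbedding Y
  have hg : ∀ i j : ℕ, ∃ g : Y → ℝ, Continuous g ∧ (i ≠ j → g (e i) ≠ g (e j)) := by
    intro i j
    by_cases hij : i = j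
    · exact ⟨fun _ => 0, continuous_const, fun h => absurd hij h⟩
    · obtain ⟨g, hgc, hg0, hg1⟩ := CompletelyRegularSpace.completely_regular (e i) {e j}
        isClosed_singleton (by simpa using fun h => hij (e.injective h))
      refine ⟨fun y => (g y : ℝ), continuous_subtype_val.comp hgc, fun _ => ?_⟩
      have h1 : g (e j) = 1 := hg1 (Set.mem_singleton _)
      simp [hg0, h1]
  choose g hgc hgij using hg
  let ι : Type := (A × ℕ × ℕ × ℕ) ⊕ (ℕ × ℕ)
  let π : Y → (ι → ℝ) := fun y i =>
    match i with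
    | Sum.inl (a, n, m, k) => f a n m k y
    | Sum.inr (i, j) => g i j y
  have hπ : Continuous π := by
    refine continuous_pi ?_
    rintro (⟨a, n, m, k⟩ | ⟨i, j⟩)
    · exact hfc a n m k
    · exact hgc i j
  let Z : Type := Set.range π
  let ρ : Y → Z := Set.rangeFactorization π
  have hρ : Continuous ρ := hπ.rangeFactorization
  have hρs : Function.Surjective ρ := Set.rangeFactorization_surjective
  haveI : Countable ι := inferInstance
  haveI hmet : MetrizableSpace Z := inferInstance
  have hZinf : Infinite Z := by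
    refine Infinite.of_injective (fun i : ℕ => ρ (e i)) ?_
    intro i j hij
    by_contra hne
    apply hgij i j hne
    have h1 : π (e i) = π (e j) := congrArg Subtype.val hij
    exact congrFun h1 (Sum.inr (i, j))
  have hZγ : GammaSeq Z := hY.image ρ hρ hρs
  letI : MetricSpace Z := metrizableSpaceMetric Z
  have hprod : S1Seq (T × Z) :=
    s1Seq_of_s1GammaOmega (hT Z hZinf (s1GammaOmega_of_s1Seq hZγ.s1Seq))
  let V' : ℕ → ℕ → Set (T × Z) := fun n m =>
    ⋃ a : A, (a : Set T) ×ˢ {z : Z | ∃ k, 0 < z.1 (Sum.inl (a, n, m, k))}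
  have hV'open : ∀ n m, IsOpen (V' n m) := by
    intro n m
    refine isOpen_iUnion fun a => IsOpen.prod (isOpen_of_mem_countableBasis a.2) ?_
    simp only [Set.ofPred_exists]
    refine isOpen_iUnion fun k => ?_
    exact isOpen_lt continuous_const ((continuous_apply _).comp continuous_subtype_val)
  have hVV' : ∀ n m t y, (t, ρ y) ∈ V' n m ↔ (t, y) ∈ V n m := by
    intro n m t y
    constructor
    · intro h
      obtain ⟨a, hta, k, hk⟩ := Set.mem_iUnion.1 h
      obtain ⟨O, _, hyO, hsub⟩ := (hfB a n m y).2 ⟨k, hk⟩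
      exact hsub ⟨hta, hyO⟩
    · intro h
      obtain ⟨u, v, hu, hv, htu, hyv, huv⟩ := isOpen_prod_iff.1 (hVopen n m) t y h
      obtain ⟨a, ha, hta, hau⟩ :=
        (isBasis_countableBasis T).exists_subset_of_mem_open htu hu
      refine Set.mem_iUnion.2 ⟨⟨a, ha⟩, hta, ?_⟩
      exact (hfB ⟨a, ha⟩ n m y).1 ⟨v, hv, hyv, (Set.prod_mono hau le_rfl).trans huv⟩
  obtain ⟨h, hh⟩ := hprod V' hV'open (by
    rintro n ⟨t, z⟩
    obtain ⟨y, rfl⟩ := hρs z
    filter_upwards [hV n (t, y)] with m hm
    exact (hVV' n m t y).2 hm)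
  refine ⟨h, fun F hF => ?_⟩
  refine (hh ((fun p : T × Y => (p.1, ρ p.2)) '' F) (hF.image _)).mono ?_
  rintro n hn ⟨t, y⟩ hty
  exact (hVV' n (h n) t y).1 (hn ⟨(t, y), hty, rfl⟩)

/-- Small subspaces of `P(ω)` are productively `S₁(Γ, Ω)`. -/
lemma productively_of_lt {κ : Cardinal.{0}} (hκ : κ.IsRegular) (hκ0 : ℵ₀ < κ) (hpr : κ ≤ prS1)
    (S : Set (ℕ → Bool)) (hS : #S < κ) :
    ProductivelyS1 (S ∪ FinSets : Set (ℕ → Bool)) := by
  by_contra hcon
  have hcard : #(S ∪ FinSets : Set (ℕ → Bool)) < κ := by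
    refine lt_of_le_of_lt (Cardinal.mk_union_le _ _) (Cardinal.add_lt_of_lt hκ.1 hS ?_)
    exact lt_of_le_of_lt (Cardinal.mk_le_aleph0_iff.2 finSets_countable.to_subtype) hκ0
  have hinf : Infinite (S ∪ FinSets : Set (ℕ → Bool)) :=
    (finSets_infinite.mono Set.subset_union_right).to_subtype
  have h35 : T35Space (S ∪ FinSets : Set (ℕ → Bool)) := inferInstance
  have : prS1 ≤ #(S ∪ FinSets : Set (ℕ → Bool)) :=
    csInf_le' ⟨_, inferInstance, h35, hinf, rfl, hcon⟩
  exact absurd (lt_of_lt_of_le hcard hpr) (not_lt.2 this)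

theorem main_perf {κ : Cardinal.{0}} (hκ : κ.IsRegular) (hpr : κ ≤ prS1)
    {X : Set (ℕ → Bool)} (hX : FinUnbounded κ X) {Y : Type u} [TopologicalSpace Y] [T35Space Y]
    [PerfectlyNormalSpace Y] [Infinite Y] (hY : HasGammaProperty Y) :
    S1GammaOmega ((X ∪ FinSets : Set (ℕ → Bool)) × Y) := by
  have hκ0 : ℵ₀ < κ := by
    refine lt_of_le_of_ne hκ.1 ?_
    rintro rfl
    exact not_finUnbounded_aleph0 X hX
  have hY' := gammaSeq_of_hasGammaProperty hY
  refine core hκ hX hY' ?_
  intro S _ hS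
  exact s1Seq_prod_of_productively (productively_of_lt hκ hκ0 hpr S hS) hY'

end Pool.Agent.helper71.Sel
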