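import Mathlib
import Pool.Agent.helper71.SelPerf

set_option autoImplicit false

universe u v

namespace Pool.Agent.helper71.Sel

open Set Filter Cardinal Topology TopologicalSpace

/-- `cov(M)`: the least cardinality of a family of meager sets covering the Baire space. -/
noncomputable def covM : Cardinal.{0} :=
  sInf {c | ∃ A : Set (Set (ℕ → ℕ)), (∀ a ∈ A, IsMeagre a) ∧ ⋃₀ A = Set.univ ∧ #A = c}

/-- A family of infinite subsets of `ω` that is open and dense for almost inclusion. -/
def IsDenseOpenFam (D : Set (Set ℕ)) : Prop :=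
  (∀ a ∈ D, a.Infinite) ∧ (∀ a ∈ D, ∀ b : Set ℕ, b.Infinite → (b \ a).Finite → b ∈ D) ∧
    ∀ a : Set ℕ, a.Infinite → ∃ b ∈ D, b ⊆ a

/-- The distributivity number `𝔥`: the least cardinality of a collection of dense open families
of infinite subsets of `ω` with empty intersection. -/
noncomputable def hNum : Cardinal.{0} :=
  sInf {c | ∃ A : Set (Set (Set ℕ)), (∀ D ∈ A, IsDenseOpenFam D) ∧ ⋂₀ A = ∅ ∧ #A = c}

lemma exists_not_mem_of_lt_covM {I : Type} (hI : #I < covM) (A : I → Set (ℕ → ℕ))
    (hA : ∀ i, IsMeagre (A i)) : ∃ h, ∀ i, h ∉ A i := by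
  by_contra hcon
  push Not at hcon
  have h1 : covM ≤ #(Set.range A) := by
    apply csInf_le'
    refine ⟨Set.range A, ?_, ?_, rfl⟩
    · rintro _ ⟨i, rfl⟩
      exact hA i
    · rw [Set.sUnion_range, Set.iUnion_eq_univ_iff]
      exact hcon
  exact absurd (lt_of_le_of_lt (h1.trans Cardinal.mk_range_le) hI) (lt_irrefl _)

lemma aleph0_lt_covM : ℵ₀ < covM := by
  have hne : {c : Cardinal.{0} | ∃ A : Set (Set (ℕ → ℕ)), (∀ a ∈ A, IsMeagre a) ∧
      ⋃₀ A = Set.univ ∧ #A = c}.Nonempty := by
    refine ⟨_, Set.range (fun x : ℕ → ℕ => ({x} : Set (ℕ → ℕ))), ?_, ?_, rfl⟩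
    · rintro _ ⟨x, rfl⟩
      apply IsNowhereDense.isMeagre
      rw [IsNowhereDense, isClosed_singleton.closure_eq]
      rw [Set.eq_empty_iff_forall_notMem]
      intro y hy
      obtain ⟨s, ⟨z, n, rfl⟩, hxs, hsO⟩ :=
        (PiNat.isTopologicalBasis_cylinders (fun _ : ℕ => ℕ)).exists_subset_of_mem_open hy
          isOpen_interior
      have h1 : ∀ w ∈ PiNat.cylinder z n, w = x := fun w hw =>
        Set.mem_singleton_iff.1 (interior_subset (hsO hw))
      have h2 : z = x := h1 z (PiNat.self_mem_cylinder z n)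
      have h3 : Function.update z n (z n + 1) = x := by
        apply h1
        rw [PiNat.mem_cylinder_iff]
        intro i hi
        simp [Function.update_of_ne hi.ne]
      rw [← h2] at h3
      have := congrFun h3 n
      simp at this
    · rw [Set.sUnion_range, Set.iUnion_eq_univ_iff]
      intro x
      exact ⟨x, rfl⟩
  obtain ⟨A, hA, hA', hAc⟩ := csInf_mem hne
  change #A = covM at hAc
  rw [← hAc]
  by_contra hcon
  rw [not_lt] at hcon
  have hcount : Countable A := Cardinal.mk_le_aleph0_iff.1 hcon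
  have h1 : IsMeagre (⋃₀ A) := by
    rw [Set.sUnion_eq_iUnion]
    rw [IsMeagre, Set.compl_iUnion]
    exact (countable_iInter_mem).2 (fun a => hA a a.2)
  rw [hA'] at h1
  have h2 : (Set.univ : Set (ℕ → ℕ))ᶜ ∈ residual (ℕ → ℕ) := h1
  have h3 : Dense ((Set.univ : Set (ℕ → ℕ))ᶜ) := dense_of_mem_residual h2
  simp only [Set.compl_univ] at h3
  exact h3.nonempty.ne_empty rfl

/-- code of the restriction of `h` to `n` -/
def restr (h : ℕ → ℕ) (n : ℕ) : ℕ := Encodable.encode ((List.range n).map h)

lemma restr_congr {h h' : ℕ → ℕ} {n : ℕ} (hh : ∀ i < n, h i = h' i) : restr h n = restr h' n := by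
  unfold restr
  congr 1
  apply List.map_congr_left
  intro i hi
  exact hh i (List.mem_range.1 hi)

lemma restr_injective (h : ℕ → ℕ) : Function.Injective (restr h) := by
  intro a b hab
  have := Encodable.encode_injective hab
  have := congrArg List.length this
  simpa using this

/-- Guessing sets are residual. -/
lemma guess_residual (e : ℕ → ℕ) :
    IsMeagre {h : ℕ → ℕ | ¬ ∃ᶠ n in atTop, h n = e (restr h n)} := by
  have h0 : {h : ℕ → ℕ | ¬ ∃ᶠ n in atTop, h n = e (restr h n)}ᶜ =
      ⋂ N : ℕ, {h : ℕ → ℕ | ∃ n, N ≤ n ∧ h n = e (restr h n)} := by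
    ext h
    simp [Filter.frequently_atTop]
  rw [IsMeagre, h0]
  refine (countable_iInter_mem).2 fun N => ?_
  have hopen : IsOpen {h : ℕ → ℕ | ∃ n, N ≤ n ∧ h n = e (restr h n)} := by
    rw [isOpen_iff_forall_mem_open]
    rintro h ⟨n, hn, hh⟩
    refine ⟨PiNat.cylinder h (n + 1), ?_, PiNat.isOpen_cylinder _ h (n + 1),
      PiNat.self_mem_cylinder h (n + 1)⟩
    intro h' hh'
    rw [PiNat.mem_cylinder_iff] at hh'
    refine ⟨n, hn, ?_⟩
    rw [hh' n (Nat.lt_succ_self n), hh,
      restr_congr (fun i hi => hh' i (hi.trans (Nat.lt_succ_self n)))]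
  have hdense : Dense {h : ℕ → ℕ | ∃ n, N ≤ n ∧ h n = e (restr h n)} := by
    rw [(PiNat.isTopologicalBasis_cylinders (fun _ : ℕ => ℕ)).dense_iff]
    rintro s ⟨z, l, rfl⟩ _
    refine ⟨Function.update z (max N l) (e (restr z (max N l))), ?_, max N l, le_max_left _ _, ?_⟩
    · rw [PiNat.mem_cylinder_iff]
      intro i hi
      have : i ≠ max N l := by
        have := le_max_right N l
        omega
      simp [Function.update_of_ne this]
    · rw [Function.update_self]
      congr 1
      apply restr_congr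
      intro i hi
      rw [Function.update_of_ne hi.ne]
  exact residual_of_dense_open hopen hdense

lemma s1Seq_prod_of_lt_covM {T : Type} [TopologicalSpace T] {Y : Type u} [TopologicalSpace Y]
    (hT : #T < covM) (hY : GammaSeq Y) : S1Seq (T × Y) := by
  classical
  intro V hVopen hV
  have hcard : #(Finset T) < covM := by
    rcases finite_or_infinite T with hfin | hinf
    · exact (Cardinal.lt_aleph0_of_finite _).trans aleph0_lt_covM
    · rw [Cardinal.mk_finset_of_infinite]; exact hT
  -- the length of the sequence with a given code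
  let len : ℕ → ℕ := fun k => ((Encodable.decode (α := List ℕ) k).getD []).length
  have hlen : ∀ h n, len (restr h n) = n := by
    intro h n
    simp [len, restr]
  have hsel : ∀ F : Finset T, ∃ e : ℕ → ℕ, ∀ y : Y, ∀ᶠ k in atTop,
      ∀ t ∈ F, (t, y) ∈ V (len k) (e k) := by
    intro F
    obtain ⟨U, hU, hU'⟩ := hY
      (fun k => {v | ∃ m, v = {y : Y | ∀ t ∈ F, (t, y) ∈ V (len k) m}})
      (by
        rintro k v ⟨m, rfl⟩
        have : {y : Y | ∀ t ∈ F, (t, y) ∈ V (len k) m} =
            ⋂ t ∈ F, {y : Y | (t, y) ∈ V (len k) m} := by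
          ext y; simp
        rw [this]
        exact isOpen_biInter_finset (fun t _ => (hVopen _ _).preimage (by fun_prop)))
      (by
        intro k G hG
        have h1 : ∀ᶠ m in atTop, (F : Set T) ×ˢ G ⊆ V (len k) m :=
          eventually_subset_of_finite (F.finite_toSet.prod hG) (hV (len k))
        obtain ⟨m, hm⟩ := h1.exists
        refine ⟨_, ⟨m, rfl⟩, ?_⟩
        intro y hy t ht
        exact hm ⟨ht, hy⟩)
    choose e he using hU
    refine ⟨e, fun y => ?_⟩
    filter_upwards [hU' y] with k hk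
    rw [he k] at hk
    exact hk
  choose e he using hsel
  obtain ⟨h, hh⟩ := exists_not_mem_of_lt_covM hcard _ (fun F => guess_residual (e F))
  refine ⟨h, fun Φ hΦ => ?_⟩
  let F : Finset T := (hΦ.image Prod.fst).toFinset
  have h1 : ∃ᶠ n in atTop, h n = e F (restr h n) := by
    have := hh F
    rw [Set.mem_ofPred_eq, not_not] at this
    exact this
  have h2 : ∀ᶠ k in atTop, ∀ y ∈ Prod.snd '' Φ, ∀ t ∈ F, (t, y) ∈ V (len k) (e F k) := by
    rw [Filter.eventually_all_finite (hΦ.image _)]
    intro y _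
    exact he F y
  have htend : Tendsto (restr h) atTop atTop := by
    rw [← Nat.cofinite_eq_atTop]
    exact (restr_injective h).tendsto_cofinite
  refine (h1.and_eventually (htend.eventually h2)).mono ?_
  rintro n ⟨hn1, hn2⟩ ⟨t, y⟩ hty
  have := hn2 y ⟨(t, y), hty, rfl⟩ t (by
    simp only [F, Set.Finite.mem_toFinset]
    exact ⟨(t, y), hty, rfl⟩)
  rw [hlen, ← hn1] at this
  exact this

end Pool.Agent.helper71.Sel
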