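import Mathlib
import Pool.Agent.helper71.SelCov

set_option autoImplicit false

universe u v

namespace Pool.Agent.helper71.Sel

open Set Filter Cardinal Topology TopologicalSpace

/-- number of elements of `a` below `k` -/
noncomputable def cnt (a : Set ℕ) (k : ℕ) : ℕ := (a ∩ Set.Iio k).ncard

lemma cnt_le_add {a b : Set ℕ} (hab : (b \ a).Finite) (k : ℕ) :
    cnt b k ≤ cnt a k + (b \ a).ncard := by
  unfold cnt
  have h1 : b ∩ Set.Iio k ⊆ (a ∩ Set.Iio k) ∪ (b \ a) := by
    intro x hx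
    by_cases hxa : x ∈ a
    · exact Or.inl ⟨hxa, hx.2⟩
    · exact Or.inr ⟨hx.1, hxa⟩
  have hfin : ((a ∩ Set.Iio k) ∪ (b \ a)).Finite :=
    ((Set.finite_Iio k).inter_of_right _).union hab
  exact (Set.ncard_le_ncard h1 hfin).trans (Set.ncard_union_le _ _)

lemma le_cnt_nth {a : Set ℕ} (ha : a.Infinite) (n : ℕ) :
    n ≤ cnt a (Nat.nth (fun i => i ∈ a) n) := by
  have hinf : (Set.ofPred (fun i => i ∈ a)).Infinite := ha
  have hmono : StrictMono (Nat.nth (fun i => i ∈ a)) := Nat.nth_strictMono hinf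
  have h1 : (Nat.nth (fun i => i ∈ a)) '' Set.Iio n ⊆
      a ∩ Set.Iio (Nat.nth (fun i => i ∈ a) n) := by
    rintro _ ⟨i, hi, rfl⟩
    exact ⟨Nat.nth_mem_of_infinite hinf i, hmono hi⟩
  have h2 := Set.ncard_le_ncard h1 ((Set.finite_Iio _).inter_of_right _)
  rw [Set.ncard_image_of_injective _ hmono.injective] at h2
  simpa [cnt] using h2

lemma cnt_range_le {g : ℕ → ℕ} (hg : StrictMono g) (k : ℕ) : cnt (Set.range g) (g k) ≤ k := by
  unfold cnt
  have h1 : Set.range g ∩ Set.Iio (g k) ⊆ g '' Set.Iio k := by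
    rintro _ ⟨⟨i, rfl⟩, hi⟩
    exact ⟨i, hg.lt_iff_lt.1 hi, rfl⟩
  have h2 := Set.ncard_le_ncard h1 ((Set.finite_Iio k).image g)
  refine h2.trans ((Set.ncard_image_le (Set.finite_Iio k)).trans ?_)
  simp

/-- the families used in the proof -/
def DF {T : Type} {Y : Type u} (V : ℕ → ℕ → Set (T × Y)) (F : Finset T) : Set (Set ℕ) :=
  {a | a.Infinite ∧ ∀ (y : Y) (c : ℕ),
    {k | k ∈ a ∧ ∃ i ≤ cnt a k + c, ∃ t ∈ F, (t, y) ∉ V i k}.Finite}

lemma isDenseOpenFam_DF {T : Type} [TopologicalSpace T] {Y : Type u} [TopologicalSpace Y]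
    (hY : GammaSeq Y) (V : ℕ → ℕ → Set (T × Y)) (hVopen : ∀ n m, IsOpen (V n m))
    (hV : ∀ n z, ∀ᶠ m in atTop, z ∈ V n m) (F : Finset T) : IsDenseOpenFam (DF V F) := by
  classical
  refine ⟨fun a ha => ha.1, ?_, ?_⟩
  · rintro a ⟨_, ha⟩ b hb hba
    refine ⟨hb, fun y c => ?_⟩
    refine (hba.union (ha y ((b \ a).ncard + c))).subset ?_
    rintro k ⟨hkb, i, hi, t, ht, hbad⟩
    by_cases hka : k ∈ a
    · right
      refine ⟨hka, i, ?_, t, ht, hbad⟩
      have := cnt_le_add hba k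
      omega
    · exact Or.inl ⟨hkb, hka⟩
  · intro a ha
    obtain ⟨U, hU, hU'⟩ := hY
      (fun j => {v | ∃ m, m ∈ a ∧ j ≤ m ∧
        v = {y : Y | ∀ i ≤ 2 * j, ∀ t ∈ F, (t, y) ∈ V i m}})
      (by
        rintro j v ⟨m, _, _, rfl⟩
        have : {y : Y | ∀ i ≤ 2 * j, ∀ t ∈ F, (t, y) ∈ V i m} =
            ⋂ i ∈ Finset.range (2 * j + 1), ⋂ t ∈ F, {y : Y | (t, y) ∈ V i m} := by
          ext y
          simp
        rw [this]
        exact isOpen_biInter_finset (fun i _ => isOpen_biInter_finset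
          (fun t _ => (hVopen _ _).preimage (by fun_prop))))
      (by
        intro j G hG
        have h1 : ∀ᶠ m in atTop, ∀ i ∈ Set.Iic (2 * j), (F : Set T) ×ˢ G ⊆ V i m := by
          rw [Filter.eventually_all_finite (Set.finite_Iic _)]
          intro i _
          exact eventually_subset_of_finite (F.finite_toSet.prod hG) (hV i)
        have h2 : ∃ᶠ m in atTop, m ∈ a := Nat.frequently_atTop_iff_infinite.2 ha
        obtain ⟨m, hma, hm1, hm2⟩ := (h2.and_eventually (h1.and (eventually_ge_atTop j))).exists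
        refine ⟨_, ⟨m, hma, hm2, rfl⟩, ?_⟩
        intro y hy i hi t ht
        exact hm1 i hi ⟨ht, hy⟩)
    choose g hga hgj hg using hU
    have htend : Tendsto g atTop atTop := tendsto_atTop_mono hgj tendsto_id
    obtain ⟨φ, hφ, hφg⟩ := Filter.strictMono_subseq_of_tendsto_atTop htend
    refine ⟨Set.range (g ∘ φ), ⟨Set.infinite_range_of_injective hφg.injective, ?_⟩, ?_⟩
    · intro y c
      obtain ⟨K, hK⟩ := Filter.eventually_atTop.1 (hU' y)
      refine ((Set.finite_Iio (max K c)).image (g ∘ φ)).subset ?_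
      rintro _ ⟨⟨k, rfl⟩, i, hi, t, ht, hbad⟩
      refine ⟨k, ?_, rfl⟩
      by_contra hk
      rw [Set.mem_Iio, not_lt] at hk
      have hφk : k ≤ φ k := hφ.id_le k
      have h1 := hK (φ k) ((le_max_left _ _).trans (hk.trans hφk))
      rw [hg (φ k)] at h1
      refine hbad (h1 i ?_ t ht)
      have h2 := cnt_range_le hφg k
      have h3 : c ≤ k := (le_max_right _ _).trans hk
      omega
    · rintro _ ⟨k, rfl⟩
      exact hga _

lemma s1Seq_prod_of_lt_hNum {T : Type} [TopologicalSpace T] {Y : Type u} [TopologicalSpace Y]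
    (hT : #T < hNum) (hY : GammaSeq Y) : S1Seq (T × Y) := by
  classical
  rcases lt_or_ge ℵ₀ (#T) with hT0 | hT0
  swap
  · exact s1Seq_prod_of_lt_covM (lt_of_le_of_lt hT0 aleph0_lt_covM) hY
  intro V hVopen hV
  have hinf : Infinite T := Cardinal.infinite_iff.2 hT0.le
  have hcard : #(Finset T) < hNum := by
    rw [Cardinal.mk_finset_of_infinite]; exact hT
  have hex : ∃ a : Set ℕ, ∀ F : Finset T, a ∈ DF V F := by
    by_contra hcon
    push Not at hcon
    have h1 : hNum ≤ #(Set.range (DF V)) := by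
      apply csInf_le'
      refine ⟨Set.range (DF V), ?_, ?_, rfl⟩
      · rintro _ ⟨F, rfl⟩
        exact isDenseOpenFam_DF hY V hVopen hV F
      · rw [Set.sInter_range, Set.eq_empty_iff_forall_notMem]
        intro a ha
        obtain ⟨F, hF⟩ := hcon a
        exact hF (Set.mem_iInter.1 ha F)
    exact absurd (lt_of_le_of_lt (h1.trans Cardinal.mk_range_le) hcard) (lt_irrefl _)
  obtain ⟨a, ha⟩ := hex
  have hainf : a.Infinite := (ha ∅).1
  have hinf' : (Set.ofPred (fun i => i ∈ a)).Infinite := hainf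
  have hmono : StrictMono (Nat.nth (fun i => i ∈ a)) := Nat.nth_strictMono hinf'
  refine ⟨Nat.nth (fun i => i ∈ a), fun Φ hΦ => ?_⟩
  let F : Finset T := (hΦ.image Prod.fst).toFinset
  have h1 : ∀ᶠ n in atTop, ∀ y ∈ Prod.snd '' Φ, ∀ t ∈ F,
      (t, y) ∈ V n (Nat.nth (fun i => i ∈ a) n) := by
    rw [Filter.eventually_all_finite (hΦ.image _)]
    intro y _
    have h2 := (ha F).2 y 0
    have h3 : {n | ¬ ∀ t ∈ F, (t, y) ∈ V n (Nat.nth (fun i => i ∈ a) n)}.Finite := by
      refine Set.Finite.of_finite_image (f := Nat.nth (fun i => i ∈ a)) (h2.subset ?_)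
        hmono.injective.injOn
      rintro _ ⟨n, hn, rfl⟩
      simp only [Set.mem_ofPred_eq, not_forall] at hn
      obtain ⟨t, ht, hbad⟩ := hn
      refine ⟨Nat.nth_mem_of_infinite hinf' n, n, ?_, t, ht, hbad⟩
      have := le_cnt_nth hainf n
      omega
    have := h3.eventually_cofinite_notMem
    rw [Nat.cofinite_eq_atTop] at this
    filter_upwards [this] with n hn
    by_contra hcon
    exact hn hcon
  refine h1.frequently.mono ?_
  rintro n hn ⟨t, y⟩ hty
  exact hn y ⟨(t, y), hty, rfl⟩ t (by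
    simp only [F, Set.Finite.mem_toFinset]
    exact ⟨(t, y), hty, rfl⟩)

end Pool.Agent.helper71.Sel
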