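import Mathlib
import Pool.Agent.helper71.SelH

set_option autoImplicit false

universe u v

namespace Pool.Agent.helper71.Sel

open Set Filter Cardinal Topology TopologicalSpace

/-- Every set of size `μ` has a family of at most `μ` countable subsets that is cofinal (for
inclusion) in the family of all its countable subsets. -/
def CtblCofinal (μ : Cardinal.{0}) : Prop :=
  ∀ I : Type, #I = μ → ∃ K : Set (Set I), #K ≤ μ ∧ (∀ k ∈ K, k.Countable) ∧
    ∀ C : Set I, C.Countable → ∃ k ∈ K, C ⊆ k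

/-- the first uncountable ordinal as a type -/
abbrev W1 : Type := (Cardinal.aleph 1).ord.ToType

lemma mk_W1 : #W1 = ℵ₁ := Cardinal.mk_ord_toType _

lemma W1_bdd (c : ℕ → W1) : ∃ w, ∀ n, c n < w := by
  by_contra hcon
  push Not at hcon
  have h1 : (Set.univ : Set W1) ⊆ ⋃ n, Set.Iic (c n) := by
    intro w _
    obtain ⟨n, hn⟩ := hcon w
    exact Set.mem_iUnion.2 ⟨n, hn⟩
  have h2 : ∀ n, (Set.Iic (c n)).Countable := by
    intro n
    have h3 : (Set.Iio (c n)).Countable := by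
      rw [← Set.countable_coe_iff, ← Cardinal.mk_le_aleph0_iff]
      have : #(Set.Iio (c n)) < ℵ₁ := by
        have := Cardinal.mk_Iio_lt (c n) (by simp)
        rwa [mk_W1] at this
      rwa [← Order.succ_le_succ_iff, Cardinal.succ_aleph0, Order.succ_le_iff]
    have : Set.Iic (c n) = insert (c n) (Set.Iio (c n)) := by
      ext x; simp [le_iff_eq_or_lt]
    rw [this]
    exact h3.insert _
  have h4 : (Set.univ : Set W1).Countable := (Set.countable_iUnion h2).mono h1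
  rw [Set.countable_univ_iff, ← Cardinal.mk_le_aleph0_iff, mk_W1] at h4
  exact absurd Cardinal.aleph0_lt_aleph_one (not_lt.2 h4)

/-- Closing off under a countable-valued operation along `ω₁`. -/
lemma closing_off {E : Type u} (I : Type) (hI : ℵ₁ ≤ #I) (hc : CtblCofinal #I)
    (G : Set E → I → ℕ → E) :
    ∃ (C : W1 × I → Set E), (∀ j, (C j).Countable) ∧
      (∀ c : ℕ → W1 × I, ∃ j, ∀ n, C (c n) ⊆ C j) ∧
      (∀ j r, ∃ j', ∀ n, G (C j) r n ∈ C j') := by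
  classical
  have hI0 : ℵ₀ ≤ #I := (Cardinal.aleph0_lt_aleph_one.le).trans hI
  have hcard : #(W1 × I) = #I := by
    rw [Cardinal.mk_prod, Cardinal.lift_id, Cardinal.lift_id, mk_W1]
    exact Cardinal.mul_eq_right hI0 hI (Cardinal.aleph_pos 1).ne'
  have hcard2 : #I = #(I × I × ℕ) := by
    rw [Cardinal.mk_prod, Cardinal.lift_id, Cardinal.lift_id, Cardinal.mk_prod,
      Cardinal.lift_id, Cardinal.lift_id, Cardinal.mk_nat,
      Cardinal.mul_eq_left hI0 hI0 Cardinal.aleph0_ne_zero, Cardinal.mul_eq_self hI0]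
  obtain ⟨e⟩ := Cardinal.eq.1 hcard2
  obtain ⟨𝒦, h𝒦card, h𝒦count, h𝒦cof⟩ := hc (W1 × I) hcard
  obtain ⟨emb⟩ := (Cardinal.le_def _ _).1 h𝒦card
  have h𝒦ne : Nonempty 𝒦 := by
    obtain ⟨k, hk, _⟩ := h𝒦cof ∅ Set.countable_empty
    exact ⟨⟨k, hk⟩⟩
  let inv : I → 𝒦 := Function.invFun emb
  let K : I → Set (W1 × I) := fun i => (inv i : Set (W1 × I))
  have hK1 : ∀ i, (K i).Countable := fun i => h𝒦count _ (inv i).2
  have hK2 : ∀ C : Set (W1 × I), C.Countable → ∃ i, C ⊆ K i := by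
    intro C hC
    obtain ⟨k, hk, hCk⟩ := h𝒦cof C hC
    obtain ⟨i, hi⟩ := Function.invFun_surjective emb.injective ⟨k, hk⟩
    refine ⟨i, ?_⟩
    have hi' : inv i = ⟨k, hk⟩ := hi
    simp only [K, hi']
    exact hCk
  -- the recursion
  let F : W1 → I → E := WellFounded.fix (C := fun _ => I → E) (r := (· < ·)) wellFounded_lt
    (fun w rec j => G {φ | ∃ p ∈ K (e j).1, ∃ h : p.1 < w, φ = rec p.1 h p.2} (e j).2.1 (e j).2.2)
  let Cs : W1 × I → Set E := fun x => {φ | ∃ p ∈ K x.2, p.1 < x.1 ∧ φ = F p.1 p.2}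
  have hF : ∀ w j, F w j = G (Cs (w, (e j).1)) (e j).2.1 (e j).2.2 := by
    intro w j
    have h1 : F w = (fun j => G {φ | ∃ p ∈ K (e j).1, ∃ h : p.1 < w, φ = F p.1 p.2}
        (e j).2.1 (e j).2.2) := WellFounded.fix_eq _ _ _
    rw [h1]
    have h2 : {φ | ∃ p ∈ K (e j).1, ∃ h : p.1 < w, φ = F p.1 p.2} = Cs (w, (e j).1) := by
      ext φ
      simp only [Set.mem_ofPred_eq, Cs, exists_prop]
    simp only [h2]
  refine ⟨Cs, ?_, ?_, ?_⟩
  · rintro ⟨w, i⟩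
    refine ((hK1 i).image (fun p => F p.1 p.2)).mono ?_
    rintro φ ⟨p, hp, _, rfl⟩
    exact ⟨p, hp, rfl⟩
  · intro c
    obtain ⟨w, hw⟩ := W1_bdd (fun n => (c n).1)
    obtain ⟨i, hi⟩ := hK2 (⋃ n, K (c n).2) (Set.countable_iUnion fun n => hK1 _)
    refine ⟨(w, i), ?_⟩
    rintro n φ ⟨p, hp, hp', rfl⟩
    exact ⟨p, hi (Set.mem_iUnion.2 ⟨n, hp⟩), hp'.trans (hw n), rfl⟩
  · rintro ⟨w, i⟩ r
    obtain ⟨w', hw'⟩ := W1_bdd (fun _ => w)
    obtain ⟨i', hi'⟩ := hK2 (Set.range (fun n : ℕ => (w, e.symm (i, r, n))))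
      (Set.countable_range _)
    refine ⟨(w', i'), fun n => ⟨(w, e.symm (i, r, n)), hi' ⟨n, rfl⟩, hw' 0, ?_⟩⟩
    rw [hF]
    simp

lemma lindelofSpace_of_gammaSeq {Y : Type u} [TopologicalSpace Y] (hY : GammaSeq Y) :
    LindelofSpace Y := by
  classical
  refine ⟨isLindelof_of_countable_subcover ?_⟩
  intro ι U hU hcov
  obtain ⟨V, hV, hV'⟩ := hY (fun _ => {v | ∃ F : Finset ι, v = ⋃ i ∈ F, U i}) (by
    rintro n v ⟨F, rfl⟩
    exact isOpen_biUnion fun i _ => hU i) (by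
    intro n G hG
    have : ∀ y : Y, ∃ i, y ∈ U i := fun y => Set.mem_iUnion.1 (hcov (Set.mem_univ y))
    choose f hf using this
    refine ⟨_, ⟨(hG.image f).toFinset, rfl⟩, ?_⟩
    intro y hy
    refine Set.mem_iUnion₂.2 ⟨f y, ?_, hf y⟩
    simp only [Set.Finite.mem_toFinset]
    exact ⟨y, hy, rfl⟩)
  choose F hF using hV
  refine ⟨⋃ n, (F n : Set ι), Set.countable_iUnion fun n => (F n).countable_toSet, ?_⟩
  intro y _
  obtain ⟨n, hn⟩ := (hV' y).exists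
  rw [hF n] at hn
  obtain ⟨i, hi, hyi⟩ := Set.mem_iUnion₂.1 hn
  exact Set.mem_iUnion₂.2 ⟨i, Set.mem_iUnion.2 ⟨n, hi⟩, hyi⟩

/-- class of `y` with respect to a set of continuous functions -/
def cls {Y : Type u} [TopologicalSpace Y] (C : Set C(Y, ℝ)) (y : Y) : Set Y :=
  {z | ∀ φ ∈ C, φ z = φ y}

lemma isClosed_cls {Y : Type u} [TopologicalSpace Y] (C : Set C(Y, ℝ)) (y : Y) :
    IsClosed (cls C y) := by
  have : cls C y = ⋂ φ ∈ C, {z | φ z = φ y} := by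
    ext z; simp [cls]
  rw [this]
  exact isClosed_biInter fun φ _ => isClosed_eq φ.continuous continuous_const

lemma exists_split {Y : Type u} [TopologicalSpace Y] [T35Space Y] [LindelofSpace Y]
    (V : ℕ → ℕ → Set Y) (hVopen : ∀ n m, IsOpen (V n m))
    (hV : ∀ n z, ∀ᶠ m in atTop, z ∈ V n m) (C : Set C(Y, ℝ)) (y : Y) :
    ∃ ψ : ℕ → C(Y, ℝ), ∀ n, {m | ¬ cls C y ⊆ V n m}.Infinite → ∀ z ∈ cls C y,
      ∃ j m, ¬ cls C y ⊆ V n m ∧ 0 < ψ j z ∧ ∀ x, 0 < ψ j x → x ∈ V n m := by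
  classical
  have hone : ∀ n, ∃ ψ : ℕ → C(Y, ℝ), {m | ¬ cls C y ⊆ V n m}.Infinite → ∀ z ∈ cls C y,
      ∃ j m, ¬ cls C y ⊆ V n m ∧ 0 < ψ j z ∧ ∀ x, 0 < ψ j x → x ∈ V n m := by
    intro n
    by_cases hA : {m | ¬ cls C y ⊆ V n m}.Infinite
    swap
    · exact ⟨fun _ => 0, fun h => absurd h hA⟩
    have hpt : ∀ z : Y, ∃ (m : ℕ) (f : C(Y, ℝ)), ¬ cls C y ⊆ V n m ∧ 0 < f z ∧
        ∀ x, 0 < f x → x ∈ V n m := by
      intro z
      obtain ⟨m, hm1, hm2⟩ :=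
        ((Nat.frequently_atTop_iff_infinite.2 hA).and_eventually (hV n z)).exists
      obtain ⟨g, hgc, hg0, hg1⟩ := CompletelyRegularSpace.completely_regular z (V n m)ᶜ
        (hVopen n m).isClosed_compl (by simpa using hm2)
      refine ⟨m, ⟨fun x => 1 - (g x : ℝ), continuous_const.sub
        (continuous_subtype_val.comp hgc)⟩, hm1, ?_, ?_⟩
      · simp [hg0]
      · intro x hx
        by_contra hxV
        have h1 : g x = 1 := hg1 hxV
        simp [h1] at hx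
    choose m f h1 h2 h3 using hpt
    have hcov : cls C y ⊆ ⋃ z : Y, {x | 0 < f z x} := by
      intro z _
      exact Set.mem_iUnion.2 ⟨z, h2 z⟩
    have : Nonempty Y := ⟨y⟩
    obtain ⟨z, hz⟩ := (isClosed_cls C y).isLindelof.indexed_countable_subcover _
      (fun z => isOpen_lt continuous_const (f z).continuous) hcov
    refine ⟨fun j => f (z j), fun _ x hx => ?_⟩
    obtain ⟨j, hj⟩ := Set.mem_iUnion.1 (hz hx)
    exact ⟨j, m (z j), h1 _, hj, h3 _⟩
  choose ψ hψ using hone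
  refine ⟨fun j => ψ (Nat.unpair j).1 (Nat.unpair j).2, fun n hn z hz => ?_⟩
  obtain ⟨j, m, h1, h2, h3⟩ := hψ n hn z hz
  refine ⟨Nat.pair n j, m, h1, ?_, ?_⟩
  · simpa using h2
  · simpa using h3

lemma good_cover {Y : Type u} [TopologicalSpace Y] [T35Space Y] [LindelofSpace Y] {I : Type}
    (hI : ℵ₁ ≤ #I) (hc : CtblCofinal #I)
    (himg : ∀ f : ℕ → C(Y, ℝ), ∃ ρ : I → Y, ∀ y, ∃ r, ∀ k, f k (ρ r) = f k y)
    (V : ℕ → ℕ → Set Y) (hVopen : ∀ n m, IsOpen (V n m))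
    (hV : ∀ n z, ∀ᶠ m in atTop, z ∈ V n m) :
    ∃ g : I → ℕ → ℕ, ∀ y, ∃ j, ∀ n m, g j n ≤ m → y ∈ V n m := by
  classical
  have hI0 : ℵ₀ ≤ #I := (Cardinal.aleph0_lt_aleph_one.le).trans hI
  -- class representatives
  have hR : ∀ C : Set C(Y, ℝ), ∃ ρ : I → Y, C.Countable → ∀ y, ∃ r, ∀ φ ∈ C, φ (ρ r) = φ y := by
    intro C
    by_cases hC : C.Countable
    · rcases C.eq_empty_or_nonempty with rfl | hne
      · obtain ⟨ρ, hρ⟩ := himg (fun _ => 0)
        refine ⟨ρ, fun _ y => ?_⟩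
        obtain ⟨r, _⟩ := hρ y
        exact ⟨r, by simp⟩
      · obtain ⟨f, hf⟩ := hC.exists_eq_range hne
        obtain ⟨ρ, hρ⟩ := himg f
        refine ⟨ρ, fun _ y => ?_⟩
        obtain ⟨r, hr⟩ := hρ y
        refine ⟨r, ?_⟩
        rw [hf]
        rintro _ ⟨k, rfl⟩
        exact hr k
    · obtain ⟨ρ, _⟩ := himg (fun _ => 0)
      exact ⟨ρ, fun h => absurd h hC⟩
  choose R hR using hR
  choose ψ hψ using exists_split V hVopen hV
  obtain ⟨C, hCc, hCdir, hCcl⟩ := closing_off I hI hc (fun C r n => ψ C (R C r) n)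
  have hIne : Nonempty I := by
    rw [← Cardinal.mk_ne_zero_iff]
    exact (lt_of_lt_of_le Cardinal.aleph0_pos hI0).ne'
  have hWne : Nonempty W1 := by
    rw [← Cardinal.mk_ne_zero_iff, mk_W1]
    exact (Cardinal.aleph_pos 1).ne'
  have hmain : ∀ y, ∃ j r, ∀ n, ∃ M, ∀ m, M ≤ m → y ∈ cls (C j) (R (C j) r) ∧
      cls (C j) (R (C j) r) ⊆ V n m := by
    intro y
    have hc : ∀ p : ℕ, ∃ j, (∃ j', cls (C j') y ⊆ V (Nat.unpair p).1 (Nat.unpair p).2) →
        cls (C j) y ⊆ V (Nat.unpair p).1 (Nat.unpair p).2 := by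
      intro p
      by_cases h : ∃ j', cls (C j') y ⊆ V (Nat.unpair p).1 (Nat.unpair p).2
      · obtain ⟨j', hj'⟩ := h
        exact ⟨j', fun _ => hj'⟩
      · exact ⟨Classical.arbitrary _, fun h' => absurd h' h⟩
    choose c hc using hc
    obtain ⟨j, hj⟩ := hCdir c
    have hanti : ∀ {A B : Set C(Y, ℝ)}, A ⊆ B → cls B y ⊆ cls A y :=
      fun hAB z hz φ hφ => hz φ (hAB hφ)
    have hmax : ∀ n m, (∃ j', cls (C j') y ⊆ V n m) → cls (C j) y ⊆ V n m := by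
      rintro n m ⟨j', hj'⟩
      have h1 := hc (Nat.pair n m) ⟨j', by simpa using hj'⟩
      simp only [Nat.unpair_pair] at h1
      exact (hanti (hj (Nat.pair n m))).trans h1
    obtain ⟨r, hr⟩ := hR (C j) (hCc j) y
    have hcls : cls (C j) (R (C j) r) = cls (C j) y := by
      ext z
      exact ⟨fun hz φ hφ => (hz φ hφ).trans (hr φ hφ), fun hz φ hφ =>
        (hz φ hφ).trans (hr φ hφ).symm⟩
    refine ⟨j, r, fun n => ?_⟩
    have hfin : {m | ¬ cls (C j) y ⊆ V n m}.Finite := by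
      by_contra hinf
      have h1 := hψ (C j) (R (C j) r) n (by rw [hcls]; exact hinf) y (by
        rw [hcls]; exact fun _ _ => rfl)
      rw [hcls] at h1
      obtain ⟨i, m, hm1, hm2, hm3⟩ := h1
      obtain ⟨j', hj'⟩ := hCcl j r
      apply hm1
      apply hmax
      refine ⟨j', fun z hz => hm3 z ?_⟩
      rw [hz _ (hj' i)]
      exact hm2
    obtain ⟨M, hM⟩ := hfin.bddAbove
    refine ⟨M + 1, fun m hm => ?_⟩
    rw [hcls]
    refine ⟨fun _ _ => rfl, ?_⟩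
    by_contra hcon
    have := hM hcon
    omega
  -- transfer to the index type `I`
  have hcard : #((W1 × I) × I) = #I := by
    simp only [Cardinal.mk_prod, Cardinal.lift_id, mk_W1]
    rw [Cardinal.mul_eq_right hI0 hI (Cardinal.aleph_pos 1).ne', Cardinal.mul_eq_self hI0]
  obtain ⟨e⟩ := Cardinal.eq.1 hcard
  let g0 : (W1 × I) × I → ℕ → ℕ := fun x n =>
    sInf {M | ∀ m, M ≤ m → cls (C x.1) (R (C x.1) x.2) ⊆ V n m}
  refine ⟨fun i => g0 (e.symm i), fun y => ?_⟩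
  obtain ⟨j, r, h⟩ := hmain y
  refine ⟨e (j, r), fun n m hm => ?_⟩
  simp only [Equiv.symm_apply_apply, g0] at hm
  obtain ⟨M, hM⟩ := h n
  have hne : {M | ∀ m, M ≤ m → cls (C j) (R (C j) r) ⊆ V n m}.Nonempty :=
    ⟨M, fun m hm => (hM m hm).2⟩
  exact Nat.sInf_mem hne m hm (hM M le_rfl).1

end Pool.Agent.helper71.Sel
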