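import Mathlib
import Pool.Agent.helper71.SelTree

set_option autoImplicit false

universe u v

namespace Pool.Agent.helper71.Sel

open Set Filter Cardinal Topology TopologicalSpace

/-- Every metrizable continuous image of `Y` has cardinality at most `μ`. -/
def MetrizableImagesLE (Y : Type u) [TopologicalSpace Y] (μ : Cardinal.{0}) : Prop :=
  ∀ (Z : Type) [MetricSpace Z] (f : Y → Z), Continuous f → Function.Surjective f → #Z ≤ μ

lemma s1GammaOmega_nat : S1GammaOmega ℕ := by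
  apply s1GammaOmega_of_s1Seq
  intro V _ hV
  have h1 : ∀ n, ∃ m, Set.Iic n ⊆ V n m := fun n =>
    (eventually_subset_of_finite (Set.finite_Iic n) (hV n)).exists
  choose h hh using h1
  refine ⟨h, fun F hF => ?_⟩
  obtain ⟨K, hK⟩ := hF.bddAbove
  refine (Filter.eventually_atTop.2 ⟨K, fun n hn => ?_⟩).frequently
  intro x hx
  exact hh n ((hK hx).trans hn)

/-- a discrete space that is productively `S₁(Γ, Ω)` indexes only non-dominating families -/
lemma exists_not_dominated' {G : Type} [TopologicalSpace G] [DiscreteTopology G]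
    (hG : ProductivelyS1 G) (g : G → ℕ → ℕ) :
    ∃ h : ℕ → ℕ, ∀ Φ : Set G, Φ.Finite → ∃ᶠ n in atTop, ∀ x ∈ Φ, g x n ≤ h n := by
  have h1 : S1Seq (G × ℕ) :=
    s1Seq_of_s1GammaOmega (hG ℕ inferInstance s1GammaOmega_nat)
  obtain ⟨h, hh⟩ := h1 (fun n m => {p | g p.1 n ≤ m}) (fun _ _ => isOpen_discrete _)
    (fun n z => Filter.eventually_ge_atTop (g z.1 n))
  refine ⟨h, fun Φ hΦ => ?_⟩
  refine (hh (Φ ×ˢ {0}) (hΦ.prod (Set.finite_singleton 0))).mono ?_
  intro n hn x hx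
  exact hn (a := (x, 0)) ⟨hx, rfl⟩

lemma exists_not_dominated {G : Type} [Infinite G] (hG : #G < prS1) (g : G → ℕ → ℕ) :
    ∃ h : ℕ → ℕ, ∀ Φ : Set G, Φ.Finite → ∃ᶠ n in atTop, ∀ x ∈ Φ, g x n ≤ h n := by
  let _ : TopologicalSpace G := ⊥
  have hd : DiscreteTopology G := ⟨rfl⟩
  have h35 : T35Space G := inferInstance
  refine exists_not_dominated' ?_ g
  by_contra hcon
  have : prS1 ≤ #G := csInf_le' ⟨G, ⊥, h35, inferInstance, rfl, hcon⟩
  exact absurd (lt_of_lt_of_le hG this) (lt_irrefl _)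

/-- `pr(S₁(Γ, Ω))` is the minimum of a nonempty class of cardinals. -/
lemma prS1_set_nonempty : {c | ∃ (X : Type) (_ : TopologicalSpace X),
    T35Space X ∧ Infinite X ∧ #X = c ∧ ¬ ProductivelyS1 X}.Nonempty := by
  let _ : TopologicalSpace (Set.range (fun x : ℕ → ℕ => x)) := ⊥
  have hd : DiscreteTopology (Set.range (fun x : ℕ → ℕ => x)) := ⟨rfl⟩
  have h35 : T35Space (Set.range (fun x : ℕ → ℕ => x)) := inferInstance
  have hinf : Infinite (Set.range (fun x : ℕ → ℕ => x)) :=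
    (Set.infinite_range_of_injective Function.injective_id).to_subtype
  refine ⟨_, (Set.range (fun x : ℕ → ℕ => x) : Set (ℕ → ℕ)), ⊥, h35, hinf, rfl, ?_⟩
  intro hcon
  obtain ⟨h, hh⟩ := exists_not_dominated' hcon (fun x n => x.1 n)
  obtain ⟨n, hn⟩ := (hh {⟨fun n => h n + 1, ⟨_, rfl⟩⟩} (Set.finite_singleton _)).exists
  have := hn _ rfl
  simp at this

/-- Countable spaces are productively `S₁(Γ, Ω)`; so `pr(S₁(Γ, Ω))` is uncountable. -/
lemma aleph0_lt_prS1 : ℵ₀ < prS1 := by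
  obtain ⟨X, τ, _, _, hX, hX'⟩ := csInf_mem prS1_set_nonempty
  change #X = prS1 at hX
  rw [← hX]
  by_contra hcon
  rw [not_lt, Cardinal.mk_le_aleph0_iff] at hcon
  apply hX'
  intro Y _ _ hY
  apply s1GammaOmega_of_s1Seq
  have hY' := s1Seq_of_s1GammaOmega hY
  intro V hVopen hV
  obtain ⟨x, hx⟩ := exists_surjective_nat X
  obtain ⟨h, hh⟩ := hY' (fun n m => ⋂ i ∈ Finset.range (n + 1), {y | (x i, y) ∈ V n m})
    (fun n m => isOpen_biInter_finset fun i _ => (hVopen n m).preimage (by fun_prop))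
    (by
      intro n y
      have : ∀ᶠ m in atTop, ∀ i ∈ Set.Iic n, (x i, y) ∈ V n m := by
        rw [Filter.eventually_all_finite (Set.finite_Iic n)]
        intro i _
        exact hV n (x i, y)
      filter_upwards [this] with m hm
      simp only [Set.mem_iInter, Finset.mem_range]
      intro i hi
      exact hm i (Nat.lt_succ_iff.1 hi))
  refine ⟨h, fun F hF => ?_⟩
  choose r hr using hx
  obtain ⟨K, hK⟩ := ((hF.image Prod.fst).image r).bddAbove
  refine ((hh (Prod.snd '' F) (hF.image _)).and_eventually (eventually_ge_atTop K)).mono ?_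
  rintro n ⟨hn, hKn⟩ ⟨a, y⟩ hay
  have h1 := hn ⟨(a, y), hay, rfl⟩
  simp only [Set.mem_iInter, Finset.mem_range] at h1
  have h2 := h1 (r a) (Nat.lt_succ_of_le ((hK ⟨a, ⟨(a, y), hay, rfl⟩, rfl⟩).trans hKn))
  rw [Set.mem_ofPred_eq, hr] at h2
  exact h2

lemma cofinal_of_emb {I J : Type} (e : I ↪ J) {μ : Cardinal.{0}}
    (h : ∃ K : Set (Set J), #K ≤ μ ∧ (∀ k ∈ K, k.Countable) ∧
      ∀ C : Set J, C.Countable → ∃ k ∈ K, C ⊆ k) :
    ∃ K : Set (Set I), #K ≤ μ ∧ (∀ k ∈ K, k.Countable) ∧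
      ∀ C : Set I, C.Countable → ∃ k ∈ K, C ⊆ k := by
  obtain ⟨K, hK1, hK2, hK3⟩ := h
  refine ⟨(fun k => e ⁻¹' k) '' K, Cardinal.mk_image_le.trans hK1, ?_, ?_⟩
  · rintro _ ⟨k, hk, rfl⟩
    exact (hK2 k hk).preimage e.injective
  · intro C hC
    obtain ⟨k, hk, hCk⟩ := hK3 (e '' C) (hC.image e)
    exact ⟨_, ⟨k, hk, rfl⟩, Set.image_subset_iff.1 hCk⟩

lemma ctblCofinal_aleph0 : CtblCofinal ℵ₀ := by
  intro I hI
  refine ⟨{Set.univ}, by simp, ?_, fun C _ => ⟨Set.univ, rfl, Set.subset_univ _⟩⟩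
  rintro k rfl
  rw [Set.countable_univ_iff, ← Cardinal.mk_le_aleph0_iff, hI]

lemma ctblCofinal_succ {μ : Cardinal.{0}} (hμ : ℵ₀ ≤ μ) (h : CtblCofinal μ) :
    CtblCofinal (Order.succ μ) := by
  intro I hI
  let W : Type := (Order.succ μ).ord.ToType
  have hW : #W = Order.succ μ := Cardinal.mk_ord_toType _
  have hIio : ∀ w : W, #(Set.Iio w) ≤ μ := by
    intro w
    have := Cardinal.mk_Iio_lt w (by simp [W])
    rw [hW] at this
    exact Order.lt_succ_iff.1 this
  have hbdd : ∀ C : Set W, C.Countable → ∃ w, C ⊆ Set.Iio w := by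
    intro C hC
    by_contra hcon
    push Not at hcon
    have h1 : (⋃ c : C, Set.Iic (c : W)) = Set.univ := by
      rw [Set.iUnion_eq_univ_iff]
      intro w
      obtain ⟨c, hc, hcw⟩ := Set.not_subset.1 (hcon w)
      refine ⟨⟨c, hc⟩, ?_⟩
      rw [Set.mem_Iio, not_lt] at hcw
      exact hcw
    have h2 : #(⋃ c : C, Set.Iic (c : W) : Set W) ≤ μ := by
      refine (Cardinal.mk_iUnion_le _).trans ?_
      have hCc : #C ≤ ℵ₀ := Cardinal.mk_le_aleph0_iff.2 hC.to_subtype
      refine (mul_le_mul' (hCc.trans hμ) (ciSup_le' (a := μ) ?_)).trans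
        (Cardinal.mul_eq_self hμ).le
      intro c
      have h3 : Set.Iic (c : W) = insert (c : W) (Set.Iio (c : W)) := by
        ext x; simp [le_iff_eq_or_lt]
      rw [h3]
      refine (Cardinal.mk_insert_le).trans ?_
      exact Cardinal.add_le_of_le hμ (hIio _) (Cardinal.one_le_aleph0.trans hμ)
    rw [h1, Cardinal.mk_univ, hW] at h2
    exact absurd (Order.lt_succ μ) (not_lt.2 h2)
  have hsub : ∀ w : W, ∃ K : Set (Set (Set.Iio w)), #K ≤ μ ∧ (∀ k ∈ K, k.Countable) ∧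
      ∀ C : Set (Set.Iio w), C.Countable → ∃ k ∈ K, C ⊆ k := by
    intro w
    have h1 : #(Set.Iio w) ≤ #(μ.out) := by rw [Cardinal.mk_out]; exact hIio w
    obtain ⟨e⟩ := (Cardinal.le_def _ _).1 h1
    exact cofinal_of_emb e (h μ.out (Cardinal.mk_out μ))
  choose K hK1 hK2 hK3 using hsub
  obtain ⟨e⟩ := Cardinal.eq.1 (hI.trans hW.symm)
  refine cofinal_of_emb e.toEmbedding ⟨⋃ w, (fun k => Subtype.val '' k) '' K w, ?_, ?_, ?_⟩
  · refine (Cardinal.mk_iUnion_le _).trans ?_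
    rw [hW]
    refine (mul_le_mul' le_rfl (ciSup_le' (a := μ) ?_)).trans ?_
    · intro w
      exact Cardinal.mk_image_le.trans (hK1 w)
    · exact (Cardinal.mul_eq_left (hμ.trans (Order.le_succ μ)) (Order.le_succ μ)
        (lt_of_lt_of_le Cardinal.aleph0_pos hμ).ne').le
  · intro k hk
    obtain ⟨w, k', hk', rfl⟩ := Set.mem_iUnion.1 hk
    exact (hK2 w k' hk').image _
  · intro C hC
    obtain ⟨w, hw⟩ := hbdd C hC
    obtain ⟨k, hk, hCk⟩ := hK3 w (Subtype.val ⁻¹' C) (hC.preimage Subtype.val_injective)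
    refine ⟨_, Set.mem_iUnion.2 ⟨w, k, hk, rfl⟩, ?_⟩
    intro c hc
    exact ⟨⟨c, hw hc⟩, hCk hc, rfl⟩

/-- The cardinals `ℵ_n` qualify. -/
lemma ctblCofinal_aleph (n : ℕ) : CtblCofinal (ℵ_ (n : Ordinal.{0})) := by
  induction n with
  | zero => simpa using ctblCofinal_aleph0
  | succ n ih =>
    have := ctblCofinal_succ (Cardinal.aleph0_le_aleph _) ih
    rw [Cardinal.succ_aleph] at this
    simpa using this

/-- Products with small spaces when all metrizable images are small. -/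
lemma s1Seq_prod_of_small {T : Type} [TopologicalSpace T] {Y : Type u} [TopologicalSpace Y]
    [T35Space Y] [Infinite Y] (hY : GammaSeq Y) {μ : Cardinal.{0}} (hμ : ℵ₁ ≤ μ)
    (hc : CtblCofinal μ) (himg : MetrizableImagesLE Y μ) (hT : #T < prS1) (hμpr : μ < prS1) :
    S1Seq (T × Y) := by
  classical
  intro V hVopen hV
  rcases isEmpty_or_nonempty T with hTe | hTn
  · refine ⟨fun _ => 0, fun F _ => ?_⟩
    refine (Filter.Eventually.of_forall fun n => ?_).frequently
    rintro ⟨t, y⟩ _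
    exact (IsEmpty.false t).elim
  have hL : LindelofSpace Y := lindelofSpace_of_gammaSeq hY
  let I : Type := μ.out
  have hI : #I = μ := Cardinal.mk_out μ
  have hI0 : ℵ₀ ≤ #I := (Cardinal.aleph0_lt_aleph_one.le).trans (hμ.trans hI.ge)
  have hIinf : Infinite I := Cardinal.infinite_iff.2 hI0
  have himg' : ∀ f : ℕ → C(Y, ℝ), ∃ ρ : I → Y, ∀ y, ∃ r, ∀ k, f k (ρ r) = f k y := by
    intro f
    let π : Y → (ℕ → ℝ) := fun y k => f k y
    have hπ : Continuous π := continuous_pi fun k => (f k).continuous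
    let _ : MetricSpace (Set.range π) := metrizableSpaceMetric (Set.range π)
    have hcard := himg (Set.range π) (Set.rangeFactorization π) hπ.rangeFactorization
      Set.rangeFactorization_surjective
    rw [← hI] at hcard
    obtain ⟨emb⟩ := (Cardinal.le_def _ _).1 hcard
    have hne : Nonempty (Set.range π) := by
      obtain ⟨y⟩ : Nonempty Y := inferInstance
      exact ⟨⟨π y, y, rfl⟩⟩
    let inv : I → Set.range π := Function.invFun emb
    have hinv : Function.Surjective inv := Function.invFun_surjective emb.injective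
    have hrep : ∀ r : I, ∃ y, π y = inv r := fun r => (inv r).2
    choose ρ hρ using hrep
    refine ⟨ρ, fun y => ?_⟩
    obtain ⟨r, hr⟩ := hinv ⟨π y, y, rfl⟩
    refine ⟨r, fun k => ?_⟩
    have h1 : π (ρ r) = π y := by rw [hρ, hr]
    exact congrFun h1 k
  have hgood : ∀ t : T, ∃ g : I → ℕ → ℕ, ∀ y, ∃ j, ∀ n m, g j n ≤ m → (t, y) ∈ V n m := by
    intro t
    exact good_cover (hμ.trans hI.ge) (by rw [hI]; exact hc) himg'
      (fun n m => {y | (t, y) ∈ V n m}) (fun n m => (hVopen n m).preimage (by fun_prop))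
      (fun n y => hV n (t, y))
  choose g hg using hgood
  have hlt : #(T × I) < prS1 := by
    rw [Cardinal.mk_prod, Cardinal.lift_id, Cardinal.lift_id]
    exact Cardinal.mul_lt_of_lt aleph0_lt_prS1.le hT (hI ▸ hμpr)
  obtain ⟨h, hh⟩ := exists_not_dominated hlt (fun x => g x.1 x.2)
  choose j hj using hg
  refine ⟨h, fun Φ hΦ => ?_⟩
  refine (hh ((fun p : T × Y => (p.1, j p.1 p.2)) '' Φ) (hΦ.image _)).mono ?_
  rintro n hn ⟨t, y⟩ hty
  exact hj t y n (h n) (hn _ ⟨(t, y), hty, rfl⟩)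

theorem main_all {κ : Cardinal.{0}} (hκ : κ.IsRegular) (hpr : κ ≤ prS1)
    {X : Set (ℕ → Bool)} (hX : FinUnbounded κ X) {Y : Type u} [TopologicalSpace Y] [T35Space Y]
    [Infinite Y] (hY : HasGammaProperty Y)
    (h : PerfectlyNormalSpace Y ∨ κ ≤ covM ∨ κ ≤ hNum ∨
      ∃ μ < κ, CtblCofinal μ ∧ MetrizableImagesLE Y μ) :
    S1GammaOmega ((X ∪ FinSets : Set (ℕ → Bool)) × Y) := by
  have hκ0 : ℵ₀ < κ := by
    refine lt_of_le_of_ne hκ.1 ?_
    rintro rfl
    exact not_finUnbounded_aleph0 X hX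
  have hY' := gammaSeq_of_hasGammaProperty hY
  have hcard : ∀ S : Set (ℕ → Bool), #S < κ → #(S ∪ FinSets : Set (ℕ → Bool)) < κ := by
    intro S hS
    refine lt_of_le_of_lt (Cardinal.mk_union_le _ _) (Cardinal.add_lt_of_lt hκ.1 hS ?_)
    exact lt_of_le_of_lt (Cardinal.mk_le_aleph0_iff.2 finSets_countable.to_subtype) hκ0
  rcases h with h | h | h | ⟨μ, hμκ, hμc, hμi⟩
  · exact main_perf hκ hpr hX hY
  · exact core hκ hX hY' fun S _ hS => s1Seq_prod_of_lt_covM ((hcard S hS).trans_le h) hY'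
  · exact core hκ hX hY' fun S _ hS => s1Seq_prod_of_lt_hNum ((hcard S hS).trans_le h) hY'
  · rcases le_or_gt κ ℵ₁ with hκ1 | hκ1
    · have h1 : κ ≤ covM := by
        refine hκ1.trans ?_
        rw [← Cardinal.succ_aleph0]
        exact Order.succ_le_of_lt aleph0_lt_covM
      exact core hκ hX hY' fun S _ hS => s1Seq_prod_of_lt_covM ((hcard S hS).trans_le h1) hY'
    · refine core hκ hX hY' fun S _ hS => ?_
      rcases le_total μ ℵ₁ with hμ1 | hμ1
      · refine s1Seq_prod_of_small hY' (μ := ℵ₁) le_rfl (by simpa using ctblCofinal_aleph 1) ?_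
          ((hcard S hS).trans_le hpr) (hκ1.trans_le hpr)
        intro Z _ f hf hfs
        exact (hμi Z f hf hfs).trans hμ1
      · exact s1Seq_prod_of_small hY' hμ1 hμc hμi ((hcard S hS).trans_le hpr) (hμκ.trans_le hpr)

end Pool.Agent.helper71.Sel
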