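import Mathlib
import Pool.Agent.helper71.SelMain

set_option autoImplicit false

namespace Pool.Agent.helper71.Sel

open Set Filter Cardinal Topology

/-- The dominating number `𝔡`: the least cardinality of a family `D` of functions `ℕ → ℕ` such
that every function `h : ℕ → ℕ` is eventually bounded by some member of `D`. -/
noncomputable def dNum : Cardinal.{0} :=
  sInf {c | ∃ D : Set (ℕ → ℕ), #D = c ∧ ∀ h : ℕ → ℕ, ∃ x ∈ D, ∀ᶠ n in atTop, h n ≤ x n}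

/-- `𝔡` is attained by an infinite dominating family. -/
lemma exists_dNum : ∃ D : Set (ℕ → ℕ), Infinite D ∧ #D = dNum ∧
    ∀ h : ℕ → ℕ, ∃ x ∈ D, ∀ᶠ n in atTop, h n ≤ x n := by
  have hne : {c | ∃ D : Set (ℕ → ℕ), #D = c ∧
      ∀ h : ℕ → ℕ, ∃ x ∈ D, ∀ᶠ n in atTop, h n ≤ x n}.Nonempty :=
    ⟨_, Set.univ, rfl, fun h => ⟨h, Set.mem_univ _, Filter.Eventually.of_forall fun _ => le_rfl⟩⟩
  obtain ⟨D, hD, hdom⟩ := csInf_mem hne
  refine ⟨D, ?_, hD, hdom⟩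
  by_contra hfin
  have hf : D.Finite := Set.not_infinite.1 (fun h => hfin h.to_subtype)
  obtain ⟨x, hx, hx'⟩ := hdom (fun n => ∑ y ∈ hf.toFinset, y n + 1)
  obtain ⟨n, hn⟩ := hx'.exists
  have h1 : x n ≤ ∑ y ∈ hf.toFinset, y n :=
    Finset.single_le_sum (f := fun y : ℕ → ℕ => y n) (fun _ _ => Nat.zero_le _)
      (hf.mem_toFinset.2 hx)
  have hn' : ∑ y ∈ hf.toFinset, y n + 1 ≤ x n := hn
  omega

/-- `pr(S₁(Γ, Ω)) ≤ 𝔡`. -/
theorem prS1_le_dNum : prS1 ≤ dNum := by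
  by_contra hcon
  obtain ⟨D, hinf, hD, hdom⟩ := exists_dNum
  have hlt : #D < prS1 := by
    rw [hD]
    exact not_le.1 hcon
  obtain ⟨h, hh⟩ := exists_not_dominated hlt (fun x : D => x.1)
  obtain ⟨x, hx, hx'⟩ := hdom (fun n => h n + 1)
  have h1 := hh {⟨x, hx⟩} (Set.finite_singleton _)
  obtain ⟨n, hn1, hn2⟩ := (h1.and_eventually hx').exists
  have h3 : x n ≤ h n := hn1 ⟨x, hx⟩ rfl
  omega

end Pool.Agent.helper71.Sel
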